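import Mathlib

/-! Units `1 + I` of a commutative ring covered by a group of finite torsion-free rank: the ideal `I`
is nil. -/

set_option autoImplicit false

namespace Pool.Agent.H465.R0

open Cardinal Polynomial

universe u v

/-- a multiplicative relation in a sequence of elements of an abelian group of finite rank -/
theorem relation {Q : Type u} [CommGroup Q] (hfin : Module.rank ℤ (Additive Q) < ℵ₀) (q : ℕ → Q) :
    ∃ (s : Finset ℕ) (k : ℕ → ℤ), (∏ i ∈ s, q i ^ k i) = 1 ∧ ∃ i ∈ s, k i ≠ 0 := by
  by_contra hcon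
  push Not at hcon
  have hli : LinearIndependent ℤ (fun i : ℕ => Additive.ofMul (q i)) := by
    rw [linearIndependent_iff']
    intro s k hk i hi
    refine hcon s k ?_ i hi
    have : Additive.ofMul (∏ i ∈ s, q i ^ k i) = 0 := by
      rw [ofMul_prod, ← hk]
      rfl
    exact Additive.ofMul.injective this
  exact absurd hli.aleph0_le_rank (not_le.mpr hfin)

theorem relation' {Q : Type u} [CommGroup Q] (hfin : Module.rank ℤ (Additive Q) < ℵ₀)
    {M : Type v} [CommMonoid M] (g : Q →* M) (q : ℕ → Q) :
    ∃ (s : Finset ℕ) (k : ℕ → ℤ), (∏ i ∈ s, g (q i) ^ (k i).toNat) =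
      (∏ i ∈ s, g (q i) ^ (-k i).toNat) ∧ ∃ i ∈ s, k i ≠ 0 := by
  obtain ⟨s, k, h1, h2⟩ := relation hfin q
  refine ⟨s, k, ?_, h2⟩
  have h3 : (∏ i ∈ s, q i ^ (k i).toNat) = (∏ i ∈ s, q i ^ (-k i).toNat) := by
    have : ∀ i, q i ^ (k i).toNat = q i ^ k i * q i ^ (-k i).toNat := by
      intro i
      rw [← zpow_natCast, ← zpow_natCast, ← zpow_add]
      congr 1
      omega
    rw [Finset.prod_congr rfl (fun i _ => this i), Finset.prod_mul_distrib, h1, one_mul]
  have := congrArg g h3
  simpa only [map_prod, map_pow] using this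

/-- pairwise coprime elements satisfy no relation -/
theorem unit_of_relation {R : Type v} [CommRing R] (w : ℕ → R)
    (hw : ∀ i j, i ≠ j → IsCoprime (w i) (w j)) (s : Finset ℕ) (k : ℕ → ℤ)
    (h : (∏ i ∈ s, w i ^ (k i).toNat) = (∏ i ∈ s, w i ^ (-k i).toNat)) :
    ∀ i ∈ s, k i ≠ 0 → IsUnit (w i) := by
  have hc : IsCoprime (∏ i ∈ s, w i ^ (k i).toNat) (∏ i ∈ s, w i ^ (-k i).toNat) := by
    refine IsCoprime.prod_left fun i _ => IsCoprime.prod_right fun j _ => ?_
    by_cases hij : i = j
    · subst hij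
      rcases le_total (k i) 0 with hk | hk
      · have : (k i).toNat = 0 := by omega
        rw [this, pow_zero]
        exact isCoprime_one_left
      · have : (-k i).toNat = 0 := by omega
        rw [this, pow_zero]
        exact isCoprime_one_right
    · exact (hw i j hij).pow
  intro i hi hki
  rcases lt_or_gt_of_ne hki with hk | hk
  · rw [h] at hc
    have hu := isCoprime_self.mp hc
    have hd : w i ^ (-k i).toNat ∣ ∏ i ∈ s, w i ^ (-k i).toNat := Finset.dvd_prod_of_mem _ hi
    have hu2 := isUnit_of_dvd_unit hd hu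
    exact (isUnit_pow_iff (by omega)).mp hu2
  · rw [← h] at hc
    have hu := isCoprime_self.mp hc
    have hd : w i ^ (k i).toNat ∣ ∏ i ∈ s, w i ^ (k i).toNat := Finset.dvd_prod_of_mem _ hi
    have hu2 := isUnit_of_dvd_unit hd hu
    exact (isUnit_pow_iff (by omega)).mp hu2

/-- partial products of a Euclid-style sequence of polynomials -/
noncomputable def PP : ℕ → ℤ[X]
  | 0 => 1
  | n + 1 => PP n * (1 + X * PP n)

/-- a Euclid-style sequence of pairwise coprime monic polynomials with constant coefficient one -/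
noncomputable def FF (n : ℕ) : ℤ[X] := 1 + X * PP n

theorem PP_monic (n : ℕ) : (PP n).Monic ∧ (FF n).Monic ∧ 1 ≤ (FF n).natDegree := by
  have key : ∀ n, (PP n).Monic → (FF n).Monic ∧ 1 ≤ (FF n).natDegree := by
    intro n h
    have h1 : (X * PP n).Monic := monic_X.mul h
    have h2 : (X * PP n).natDegree = 1 + (PP n).natDegree := by
      rw [monic_X.natDegree_mul h, natDegree_X]
    have h3 : (1 : ℤ[X]).degree < (X * PP n).degree := by
      rw [degree_one, degree_eq_natDegree h1.ne_zero, h2]
      exact_mod_cast (by omega : 0 < 1 + (PP n).natDegree)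
    refine ⟨?_, ?_⟩
    · unfold FF
      rw [add_comm]
      exact h1.add_of_left h3
    · unfold FF
      rw [natDegree_add_eq_right_of_degree_lt h3, h2]
      omega
  induction n with
  | zero => exact ⟨monic_one, key 0 monic_one⟩
  | succ n ih =>
    have h : (PP (n + 1)).Monic := ih.1.mul ih.2.1
    exact ⟨h, key _ h⟩

theorem FF_dvd {i j : ℕ} (h : i < j) : FF i ∣ PP j := by
  induction j with
  | zero => omega
  | succ j ih =>
    rcases Nat.lt_succ_iff_lt_or_eq.mp h with h' | h'
    · exact (ih h').mul_right _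
    · subst h'
      exact Dvd.intro_left _ rfl

theorem FF_coprime {i j : ℕ} (h : i ≠ j) : IsCoprime (FF i) (FF j) := by
  have key : ∀ i j, i < j → IsCoprime (FF i) (FF j) := by
    intro i j h
    obtain ⟨r, hr⟩ := FF_dvd h
    refine ⟨-(X * r), 1, ?_⟩
    have : FF j = 1 + X * (FF i * r) := by rw [← hr]; rfl
    rw [this]
    ring
  rcases lt_or_gt_of_ne h with h' | h'
  · exact key i j h'
  · exact (key j i h').symm

/-- The key fact: if `1 + I` is covered by the image of a group of finite rank, then the ideal `I` has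
trivial image in every domain. -/
theorem zero_of_cover {U : Type v} [CommRing U] (I : Ideal U) {Q : Type u} [CommGroup Q]
    (hfin : Module.rank ℤ (Additive Q) < ℵ₀) (f : Q →* U)
    (hf : ∀ x ∈ I, ∃ q, f q = 1 + x) {D : Type v} [CommRing D] [IsDomain D] (mk : U →+* D)
    (hs : Function.Surjective mk) : ∀ x ∈ I, mk x = 0 := by
  intro x hx
  by_contra ht0
  have hunit : ∀ q, mk (f q) ≠ 0 := by
    intro q h0
    have h1 : f q * f q⁻¹ = 1 := by rw [← map_mul, mul_inv_cancel, map_one]
    have h2 : mk (f q) * mk (f q⁻¹) = 1 := by rw [← map_mul, h1, map_one]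
    rw [h0, zero_mul] at h2
    exact zero_ne_one h2
  set t : D := mk x with ht
  -- first step: a nonzero integer in the image of `I`
  obtain ⟨c, y, hyI, hyc, hc0⟩ : ∃ (c : ℤ) (y : U), y ∈ I ∧ mk y = (c : D) ∧ (c : D) ≠ 0 := by
    have hq : ∀ i : ℕ, ∃ q, f q = aeval x (FF i) := by
      intro i
      have : aeval x (FF i) = 1 + x * aeval x (PP i) := by
        simp [FF]
      rw [this]
      exact hf _ (I.mul_mem_right _ hx)
    choose q hq using hq
    obtain ⟨s, k, h1, i0, hi0, hki0⟩ := relation' hfin ((mk : U →* D).comp f) q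
    have h1' : (∏ i ∈ s, (aeval t (FF i)) ^ (k i).toNat) =
        (∏ i ∈ s, (aeval t (FF i)) ^ (-k i).toNat) := by
      have e : ∀ i, ((mk : U →* D).comp f) (q i) = aeval t (FF i) := by
        intro i
        have : ((mk : U →* D).comp f) (q i) = mk (f (q i)) := rfl
        rw [this, hq i, ht]
        rw [aeval_def, aeval_def, hom_eval₂]
        congr 1
        exact RingHom.ext_int _ _
      simpa only [e] using h1
    set H : ℤ[X] := (∏ i ∈ s, (FF i) ^ (k i).toNat) - (∏ i ∈ s, (FF i) ^ (-k i).toNat) with hH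
    have hev : aeval t H = 0 := by
      rw [hH, map_sub, map_prod, map_prod, sub_eq_zero]
      simpa only [map_pow] using h1'
    let φ : ℤ →+* D := Int.castRingHom D
    have hne : H.map φ ≠ 0 := by
      intro h0
      have h2 : (∏ i ∈ s, ((FF i).map φ) ^ (k i).toNat) =
          (∏ i ∈ s, ((FF i).map φ) ^ (-k i).toNat) := by
        rw [hH, Polynomial.map_sub, sub_eq_zero, Polynomial.map_prod, Polynomial.map_prod] at h0
        simpa only [Polynomial.map_pow] using h0
      have h3 := unit_of_relation (fun i => (FF i).map φ)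
        (fun i j hij => (FF_coprime hij).map (mapRingHom φ)) s k h2 i0 hi0 hki0
      have hm : ((FF i0).map φ).Monic := (PP_monic i0).2.1.map φ
      have h4 := hm.eq_one_of_isUnit h3
      have h5 : ((FF i0).map φ).natDegree = (FF i0).natDegree := (PP_monic i0).2.1.natDegree_map φ
      rw [h4, natDegree_one] at h5
      have := (PP_monic i0).2.2
      omega
    set n := (H.map φ).natTrailingDegree with hn
    have hX : X ^ n ∣ H.map φ := by
      rw [X_pow_dvd_iff]
      intro d hd
      exact coeff_eq_zero_of_lt_natTrailingDegree hd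
    obtain ⟨R, hR⟩ := hX
    have hRt : R.eval t = 0 := by
      have h6 : (H.map φ).eval t = 0 := by
        rw [eval_map]
        exact hev
      rw [hR, eval_mul, eval_pow, eval_X] at h6
      exact (mul_eq_zero.mp h6).resolve_left (pow_ne_zero _ ht0)
    have hcoef : R.coeff 0 = ((H.coeff n : ℤ) : D) := by
      have h7 : (H.map φ).coeff n = φ (H.coeff n) := coeff_map φ n
      rw [hR] at h7
      have h8 : (X ^ n * R).coeff n = R.coeff 0 := by
        have := coeff_X_pow_mul R n 0
        simpa using this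
      rw [← h8, h7]
      rfl
    have hcne : R.coeff 0 ≠ 0 := by
      intro h9
      have h10 : (H.map φ).coeff n = 0 := by
        rw [hR]
        have := coeff_X_pow_mul R n 0
        rw [zero_add] at this
        rw [this, h9]
      have h11 : (H.map φ).trailingCoeff = 0 := h10
      exact hne (trailingCoeff_eq_zero.mp h11)
    have hsplit : R.coeff 0 = t * (-(R.divX.eval t)) := by
      have h12 := congrArg (eval t) (divX_mul_X_add R)
      rw [eval_add, eval_mul, eval_X, eval_C, hRt] at h12
      linear_combination h12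
    obtain ⟨w, hw⟩ := hs (-(R.divX.eval t))
    refine ⟨H.coeff n, x * w, I.mul_mem_right _ hx, ?_, ?_⟩
    · rw [map_mul, hw, ← hsplit, hcoef]
    · rw [← hcoef]
      exact hcne
  -- second step
  have hcov : ∀ a : ℤ, ∃ q, mk (f q) = 1 + (a : D) * (c : D) := by
    intro a
    obtain ⟨q, hq⟩ := hf ((a : U) * y) (I.mul_mem_left _ hyI)
    refine ⟨q, ?_⟩
    rw [hq, map_add, map_one, map_mul, hyc, map_intCast]
  obtain ⟨p, hp⟩ := CharP.exists D
  rcases CharP.char_is_prime_or_zero D p with hpp | hp0
  · -- positive characteristic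
    have hnd : ¬ (p : ℤ) ∣ c := by
      intro h
      exact hc0 ((CharP.intCast_eq_zero_iff D p c).mpr h)
    have hcop : IsCoprime (p : ℤ) c := (Prime.coprime_iff_not_dvd (Nat.prime_iff_prime_int.mp hpp)).mpr hnd
    obtain ⟨a, b, hab⟩ := hcop
    obtain ⟨q, hq⟩ := hcov (-b)
    refine hunit q ?_
    rw [hq]
    have h1 : ((a * p + b * c : ℤ) : D) = 1 := by rw [hab, Int.cast_one]
    have h2 : ((p : ℤ) : D) = 0 := (CharP.intCast_eq_zero_iff D p _).mpr dvd_rfl
    rw [Int.cast_add, Int.cast_mul, Int.cast_mul] at h1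
    rw [Int.cast_neg]
    rw [h2] at h1
    linear_combination (-1 : D) * h1
  · -- characteristic zero
    subst hp0
    have : CharZero D := CharP.charP_to_charZero D
    have hc : c ≠ 0 := fun h => hc0 (by rw [h, Int.cast_zero])
    set m := c.natAbs with hm
    have hm0 : 0 < m := Int.natAbs_pos.mpr hc
    set e := m.totient with he
    have he0 : 0 < e := Nat.totient_pos.mpr hm0
    let ℓ : ℕ → ℕ := fun i => Nat.nth Nat.Prime (i + m)
    have hℓp : ∀ i, (ℓ i).Prime := fun i => Nat.prime_nth_prime _
    have hℓm : ∀ i, m < ℓ i := by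
      intro i
      have := Nat.add_two_le_nth_prime (i + m)
      have h' : ℓ i = Nat.nth Nat.Prime (i + m) := rfl
      omega
    have hℓinj : ∀ i j, i ≠ j → ℓ i ≠ ℓ j := by
      intro i j hij h
      have := Nat.nth_injective Nat.infinite_setOfPred_prime h
      omega
    have hq : ∀ i, ∃ q, mk (f q) = (((ℓ i : ℤ) ^ e : ℤ) : D) := by
      intro i
      have hcopr : Nat.Coprime (ℓ i) m := by
        refine (Nat.Prime.coprime_iff_not_dvd (hℓp i)).mpr fun h => ?_
        have := Nat.le_of_dvd hm0 h
        have := hℓm i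
        omega
      have h1 := Nat.ModEq.pow_totient hcopr
      have h2 : (m : ℤ) ∣ (ℓ i : ℤ) ^ e - 1 := by
        have := (Nat.modEq_iff_dvd.mp h1.symm)
        push_cast at this
        exact this
      have h3 : c ∣ (ℓ i : ℤ) ^ e - 1 := Int.natAbs_dvd.mp h2
      obtain ⟨a, ha⟩ := h3
      obtain ⟨q, hq⟩ := hcov a
      refine ⟨q, ?_⟩
      rw [hq]
      have : (ℓ i : ℤ) ^ e = 1 + a * c := by linear_combination ha
      rw [this]
      push_cast
      ring
    choose q hq using hq
    obtain ⟨s, k, h1, i0, hi0, hki0⟩ := relation' hfin ((mk : U →* D).comp f) q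
    have h2 : (∏ i ∈ s, ((ℓ i : ℤ) ^ e) ^ (k i).toNat) = (∏ i ∈ s, ((ℓ i : ℤ) ^ e) ^ (-k i).toNat) := by
      have hinj : Function.Injective (Int.cast : ℤ → D) := Int.cast_injective
      apply hinj
      rw [Int.cast_prod, Int.cast_prod]
      have e' : ∀ i, ((mk : U →* D).comp f) (q i) = (((ℓ i : ℤ) ^ e : ℤ) : D) := fun i => hq i
      simp only [e'] at h1
      simpa only [Int.cast_pow] using h1
    have h3 := unit_of_relation (fun i => (ℓ i : ℤ) ^ e) (fun i j hij => by
      refine IsCoprime.pow ?_
      rw [Nat.isCoprime_iff_coprime]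
      exact (Nat.coprime_primes (hℓp i) (hℓp j)).mpr (hℓinj i j hij)) s k h2 i0 hi0 hki0
    have h4 := (isUnit_pow_iff he0.ne').mp h3
    have h5 := Int.isUnit_iff_natAbs_eq.mp h4
    rw [Int.natAbs_natCast] at h5
    exact (hℓp i0).one_lt.ne' h5

theorem nil_of_cover {U : Type v} [CommRing U] (I : Ideal U) {Q : Type u} [CommGroup Q]
    (hfin : Module.rank ℤ (Additive Q) < ℵ₀) (f : Q →* U)
    (hf : ∀ x ∈ I, ∃ q, f q = 1 + x) : ∀ x ∈ I, IsNilpotent x := by
  intro x hx
  rw [nilpotent_iff_mem_prime]
  intro P hP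
  have : IsDomain (U ⧸ P) := Ideal.Quotient.isDomain P
  exact Ideal.Quotient.eq_zero_iff_mem.mp
    (zero_of_cover I hfin f hf (Ideal.Quotient.mk P) Ideal.Quotient.mk_surjective x hx)

end Pool.Agent.H465.R0
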