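import Mathlib
import Pool.Agent.H465.R0.Nil

/-! Ranks of a nil ideal `I` and of the group `1 + I`. -/

set_option autoImplicit false

namespace Pool.Agent.H465.R0

open Cardinal

universe u v

section Exp

variable {A : Type v} [CommRing A] [Algebra ℚ A]

theorem exp_split {a : A} (h : IsNilpotent a) :
    ∃ w : A, IsNilpotent.exp a = 1 + a + a ^ 2 * w := by
  obtain ⟨k, hk⟩ := h
  have hk' : a ^ (k + 2) = 0 := by rw [pow_add, hk, zero_mul]
  refine ⟨∑ i ∈ Finset.range k, ((i + 1 + 1).factorial : ℚ)⁻¹ • a ^ i, ?_⟩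
  rw [IsNilpotent.exp_eq_sum hk', Finset.sum_range_succ', Finset.sum_range_succ', Finset.mul_sum]
  have : ∀ i, a ^ 2 * (((i + 1 + 1).factorial : ℚ)⁻¹ • a ^ i) =
      ((i + 1 + 1).factorial : ℚ)⁻¹ • a ^ (i + 1 + 1) := by
    intro i
    rw [mul_smul_comm]
    congr 1
    ring
  rw [Finset.sum_congr rfl (fun i _ => this i)]
  simp
  ring

theorem exp_eq_one {a : A} (h : IsNilpotent a) (he : IsNilpotent.exp a = 1) : a = 0 := by
  obtain ⟨w, hw⟩ := exp_split h
  rw [he] at hw
  have h1 : a * (1 + a * w) = 0 := by linear_combination -hw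
  have h2 : IsUnit (1 + a * w) := by
    have : IsNilpotent (a * w) := (Commute.all a w).isNilpotent_mul_right h
    exact this.isUnit_one_add
  exact (IsUnit.mul_left_eq_zero h2).mp h1

theorem exp_inj {a b : A} (ha : IsNilpotent a) (hb : IsNilpotent b)
    (he : IsNilpotent.exp a = IsNilpotent.exp b) : a = b := by
  have hn : IsNilpotent (a + -b) := (Commute.all a (-b)).isNilpotent_add ha hb.neg
  have h1 : IsNilpotent.exp (a + -b) = 1 := by
    rw [IsNilpotent.exp_add_of_commute (Commute.all _ _) ha hb.neg, he,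
      IsNilpotent.exp_mul_exp_neg_self hb]
  have := exp_eq_one hn h1
  linear_combination this

theorem exp_surj (V : Ideal A) (hV : ∀ v ∈ V, IsNilpotent v) (k : ℕ) :
    ∀ y ∈ V, y ^ k = 0 → ∃ x ∈ V, IsNilpotent.exp x = 1 + y := by
  induction k with
  | zero =>
    intro y _ h
    rw [pow_zero] at h
    have := subsingleton_of_zero_eq_one h.symm
    exact ⟨0, V.zero_mem, Subsingleton.elim _ _⟩
  | succ k ih =>
    intro y hy h
    rcases Nat.eq_zero_or_pos k with hk | hk
    · subst hk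
      rw [zero_add, pow_one] at h
      subst h
      exact ⟨0, V.zero_mem, by rw [IsNilpotent.exp_zero, add_zero]⟩
    · obtain ⟨w, hw⟩ := exp_split (hV y hy).neg
      have h1 : (1 + y) * IsNilpotent.exp (-y) = 1 + y ^ 2 * (w * (1 + y) - 1) := by
        rw [hw]; ring
      have h2 : y ^ 2 * (w * (1 + y) - 1) ∈ V := by
        rw [pow_two, mul_assoc]
        exact V.mul_mem_right _ hy
      have h3 : (y ^ 2 * (w * (1 + y) - 1)) ^ k = 0 := by
        rw [mul_pow, ← pow_mul, pow_eq_zero_of_le (by omega) h, zero_mul]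
      obtain ⟨x, hx, hxe⟩ := ih _ h2 h3
      refine ⟨x + y, V.add_mem hx hy, ?_⟩
      rw [IsNilpotent.exp_add_of_commute (Commute.all _ _) (hV x hx) (hV y hy), hxe, ← h1,
        mul_assoc, IsNilpotent.exp_neg_mul_exp_self (hV y hy), mul_one]

end Exp

theorem one_add_pow {U : Type v} [CommRing U] (y : U) (m : ℕ) :
    ∃ r : U, (1 + y) ^ m = 1 + m * y + y ^ 2 * r := by
  induction m with
  | zero => exact ⟨0, by simp⟩
  | succ m ih =>
    obtain ⟨r, hr⟩ := ih
    refine ⟨m + r + r * y, ?_⟩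
    rw [pow_succ, hr]
    push_cast
    ring

theorem torsion_nil {U : Type v} [CommRing U] (m : ℕ) (hm : 0 < m) (k : ℕ) :
    ∀ y : U, (m : U) * y = 0 → y ^ k = 0 → ∃ M : ℕ, 0 < M ∧ (1 + y) ^ M = 1 := by
  induction k with
  | zero =>
    intro y _ h
    rw [pow_zero] at h
    have := subsingleton_of_zero_eq_one h.symm
    exact ⟨1, one_pos, Subsingleton.elim _ _⟩
  | succ k ih =>
    intro y hy h
    rcases Nat.eq_zero_or_pos k with hk | hk
    · subst hk
      rw [zero_add, pow_one] at h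
      exact ⟨1, one_pos, by rw [h, add_zero, one_pow]⟩
    · obtain ⟨r, hr⟩ := one_add_pow y m
      rw [hy, add_zero] at hr
      have h3 : (y ^ 2 * r) ^ k = 0 := by
        rw [mul_pow, ← pow_mul, pow_eq_zero_of_le (by omega) h, zero_mul]
      have h4 : (m : U) * (y ^ 2 * r) = 0 := by
        have : (m : U) * (y ^ 2 * r) = (m * y) * (y * r) := by ring
        rw [this, hy, zero_mul]
      obtain ⟨M, hM, hMe⟩ := ih _ h4 h3
      exact ⟨m * M, Nat.mul_pos hm hM, by rw [pow_mul, hr, hMe]⟩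

theorem rank_of_torsion {M M' : Type u} [AddCommGroup M] [AddCommGroup M'] (φ : M →ₗ[ℤ] M')
    (h1 : ∀ x, φ x = 0 → ∃ m : ℤ, m ≠ 0 ∧ m • x = 0)
    (h2 : ∀ y, ∃ m : ℤ, m ≠ 0 ∧ ∃ x, m • y = φ x) :
    Module.rank ℤ M = Module.rank ℤ M' := by
  have e1 := LinearMap.rank_range_add_rank_ker φ
  have e2 := Submodule.rank_quotient_add_rank (LinearMap.range φ)
  have z1 : Module.rank ℤ (LinearMap.ker φ) = 0 := by
    rw [rank_eq_zero_iff]
    rintro ⟨x, hx⟩
    obtain ⟨m, hm, h⟩ := h1 x hx
    exact ⟨m, hm, Subtype.ext h⟩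
  have z2 : Module.rank ℤ (M' ⧸ LinearMap.range φ) = 0 := by
    rw [rank_eq_zero_iff]
    intro z
    obtain ⟨y, rfl⟩ := Submodule.Quotient.mk_surjective _ z
    obtain ⟨m, hm, x, h⟩ := h2 y
    refine ⟨m, hm, ?_⟩
    rw [← Submodule.Quotient.mk_smul, Submodule.Quotient.mk_eq_zero, h]
    exact LinearMap.mem_range_self _ _
  rw [z1, add_zero] at e1
  rw [z2, zero_add] at e2
  rw [← e1, e2]

/-- the ranks of a nil ideal `I`, of a group `Q` covering `1 + I` and of the kernel `D` -/
theorem rank_cover_aux {U A Q : Type u} [CommRing U] [CommRing A] [Algebra ℚ A] [CommGroup Q]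
    (ι : U →+* A) (hι0 : ∀ x, ι x = 0 → ∃ m : ℕ, 0 < m ∧ (m : U) * x = 0)
    (hι1 : ∀ a : A, ∃ (c : ℚ) (s : U), a = c • ι s)
    (I : Ideal U) (hI : ∀ x ∈ I, IsNilpotent x) (f : Q →* U)
    (hf : ∀ x ∈ I, ∃ q, f q = 1 + x) (hf' : ∀ q, f q - 1 ∈ I) (D : Subgroup Q)
    (hD : ∀ q, q ∈ D ↔ f q = 1) :
    Module.rank ℤ (Additive Q) = Module.rank ℤ (Additive D) + Module.rank ℤ I := by
  let V : Ideal A :=
    { carrier := {v | ∃ (c : ℚ) (x : U), x ∈ I ∧ v = c • ι x}
      zero_mem' := ⟨0, 0, I.zero_mem, by rw [map_zero, smul_zero]⟩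
      add_mem' := by
        rintro _ _ ⟨c, x, hx, rfl⟩ ⟨c', x', hx', rfl⟩
        refine ⟨1 / ((c.den : ℚ) * c'.den),
          (c.num : U) * (c'.den : U) * x + (c'.num : U) * (c.den : U) * x',
          I.add_mem (I.mul_mem_left _ hx) (I.mul_mem_left _ hx'), ?_⟩
        have e1 : (c.den : ℚ) ≠ 0 := by exact_mod_cast c.den_nz
        have e2 : (c'.den : ℚ) ≠ 0 := by exact_mod_cast c'.den_nz
        rw [map_add, map_mul, map_mul, map_mul, map_mul, map_intCast, map_intCast, map_natCast,
          map_natCast, smul_add]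
        have r1 : (c.num : A) * (c'.den : A) * ι x = ((c.num : ℚ) * c'.den) • ι x := by
          rw [Algebra.smul_def, map_mul, map_intCast, map_natCast]
        have r2 : (c'.num : A) * (c.den : A) * ι x' = ((c'.num : ℚ) * c.den) • ι x' := by
          rw [Algebra.smul_def, map_mul, map_intCast, map_natCast]
        rw [r1, r2, smul_smul, smul_smul]
        congr 2
        · nth_rewrite 1 [← Rat.num_div_den c]
          field_simp
        · nth_rewrite 1 [← Rat.num_div_den c']
          field_simp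
      smul_mem' := by
        rintro a _ ⟨c', x', hx', rfl⟩
        obtain ⟨c, s, rfl⟩ := hι1 a
        refine ⟨c * c', s * x', I.mul_mem_left _ hx', ?_⟩
        rw [smul_eq_mul, smul_mul_smul_comm, map_mul] }
  have hVmem : ∀ v, v ∈ V ↔ ∃ (c : ℚ) (x : U), x ∈ I ∧ v = c • ι x := fun v => Iff.rfl
  have hιV : ∀ x ∈ I, ι x ∈ V := fun x hx => (hVmem _).mpr ⟨1, x, hx, (one_smul _ _).symm⟩
  have hV : ∀ v ∈ V, IsNilpotent v := by
    intro v hv
    obtain ⟨c, x, hx, rfl⟩ := (hVmem v).mp hv
    obtain ⟨k, hk⟩ := hI x hx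
    exact ⟨k, by rw [smul_pow, ← map_pow, hk, map_zero, smul_zero]⟩
  have hex : ∀ q : Q, ∃ x : V, IsNilpotent.exp (x : A) = ι (f q) := by
    intro q
    have h1 := hιV _ (hf' q)
    obtain ⟨k, hk⟩ := hV _ h1
    obtain ⟨x, hx, hxe⟩ := exp_surj V hV k _ h1 hk
    refine ⟨⟨x, hx⟩, ?_⟩
    rw [hxe, map_sub, map_one]
    ring
  choose Λ hΛ using hex
  have huniq : ∀ (x y : V), IsNilpotent.exp (x : A) = IsNilpotent.exp (y : A) → x = y := fun x y h =>
    Subtype.ext (exp_inj (hV _ x.2) (hV _ y.2) h)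
  let L₀ : Additive Q →+ V :=
    { toFun := fun q => Λ q.toMul
      map_zero' := by
        refine huniq _ _ ?_
        rw [hΛ]
        simp [IsNilpotent.exp_zero]
      map_add' := by
        intro p q
        refine huniq _ _ ?_
        rw [hΛ]
        have : ((Λ p.toMul + Λ q.toMul : V) : A) = (Λ p.toMul : A) + (Λ q.toMul : A) := rfl
        rw [this, IsNilpotent.exp_add_of_commute (Commute.all _ _) (hV _ (Λ _).2) (hV _ (Λ _).2),
          hΛ, hΛ, toMul_add, map_mul, map_mul] }
  let L : Additive Q →ₗ[ℤ] V := L₀.toIntLinearMap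
  have hL : ∀ q : Q, L (Additive.ofMul q) = Λ q := fun q => rfl
  have hker1 : ∀ q : Q, L (Additive.ofMul q) = 0 → ∃ M : ℕ, 0 < M ∧ q ^ M ∈ D := by
    intro q hq
    rw [hL] at hq
    have h1 := hΛ q
    rw [hq] at h1
    have h2 : ι (f q - 1) = 0 := by
      rw [map_sub, ← h1, map_one]
      have : ((0 : V) : A) = 0 := rfl
      rw [this, IsNilpotent.exp_zero, sub_self]
    obtain ⟨m, hm, hm0⟩ := hι0 _ h2
    obtain ⟨k, hk⟩ := hI _ (hf' q)
    obtain ⟨M, hM, hMe⟩ := torsion_nil m hm k _ hm0 hk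
    refine ⟨M, hM, (hD _).mpr ?_⟩
    rw [map_pow, ← hMe]
    congr 1
    ring
  have hker2 : ∀ q : Q, q ∈ D → L (Additive.ofMul q) = 0 := by
    intro q hq
    rw [hL]
    refine huniq _ _ ?_
    rw [hΛ, (hD q).mp hq, map_one]
    have : ((0 : V) : A) = 0 := rfl
    rw [this, IsNilpotent.exp_zero]
  have hcok : ∀ v : V, ∃ m : ℤ, m ≠ 0 ∧ ∃ q : Additive Q, m • v = L q := by
    rintro ⟨v, hv⟩
    obtain ⟨c, x, hx, rfl⟩ := (hVmem v).mp hv
    obtain ⟨k, hk⟩ := hI x hx
    -- replace `x` by a multiple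
    set z : U := (k.factorial : U) * ((c.num : U) * x) with hz
    have hzI : z ∈ I := I.mul_mem_left _ (I.mul_mem_left _ hx)
    have hzk : (ι z) ^ k = 0 := by
      rw [← map_pow, hz]
      have : ((k.factorial : U) * ((c.num : U) * x)) ^ k =
        ((k.factorial : U) * (c.num : U)) ^ k * x ^ k := by ring
      rw [this, hk, mul_zero, map_zero]
    have hterm : ∀ i ∈ Finset.range k, ∃ t : U, ((i.factorial : ℚ)⁻¹ • (ι z) ^ i) = ι t ∧
        (1 ≤ i → t ∈ I) := by
      intro i hi
      have hi' := Finset.mem_range.mp hi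
      obtain ⟨r, hr⟩ := Nat.factorial_dvd_factorial hi'.le
      rcases Nat.eq_zero_or_pos i with h0 | hpos
      · subst h0
        exact ⟨1, by simp, fun h => absurd h (by omega)⟩
      · refine ⟨(r : U) * ((c.num : U) * x) * z ^ (i - 1), ?_, fun _ =>
          I.mul_mem_right _ (I.mul_mem_left _ (I.mul_mem_left _ hx))⟩
        have e0 : (i.factorial : ℚ) ≠ 0 := by exact_mod_cast i.factorial_ne_zero
        have e1 : (ι z) ^ i = ι z * (ι z) ^ (i - 1) := by
          rw [← pow_succ']
          congr 1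
          omega
        have e2 : ι z = (i.factorial : ℚ) • ι ((r : U) * ((c.num : U) * x)) := by
          rw [hz, hr, Algebra.smul_def]
          simp only [map_mul, map_natCast, Nat.cast_mul]
          ring
        rw [e1]
        nth_rewrite 1 [e2]
        rw [smul_mul_assoc, smul_smul, inv_mul_cancel₀ e0, one_smul, map_mul _ _ (z ^ (i - 1)),
          map_pow]
    have hsum : ∃ t ∈ I, IsNilpotent.exp (ι z) = ι (1 + t) := by
      rw [IsNilpotent.exp_eq_sum hzk]
      rcases Nat.eq_zero_or_pos k with h0 | hpos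
      · subst h0
        rw [pow_zero] at hzk
        have := subsingleton_of_zero_eq_one hzk.symm
        exact ⟨0, I.zero_mem, Subsingleton.elim _ _⟩
      · choose! t ht htI using hterm
        obtain ⟨k', rfl⟩ : ∃ k', k = k' + 1 := ⟨k - 1, by omega⟩
        refine ⟨∑ i ∈ Finset.range k', t (i + 1), I.sum_mem fun i hi => htI (i + 1)
          (Finset.mem_range.mpr (by have := Finset.mem_range.mp hi; omega)) (by omega), ?_⟩
        rw [Finset.sum_range_succ', map_add, map_one, map_sum, add_comm]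
        congr 1
        · simp
        · exact Finset.sum_congr rfl fun i hi => ht (i + 1)
            (Finset.mem_range.mpr (by have := Finset.mem_range.mp hi; omega))
    obtain ⟨t, htI, hte⟩ := hsum
    obtain ⟨q, hq⟩ := hf t htI
    have hzV : ι z ∈ V := hιV z hzI
    have hLq : L (Additive.ofMul q) = ⟨ι z, hzV⟩ := by
      rw [hL]
      refine huniq _ _ ?_
      rw [hΛ, hq, ← hte]
    refine ⟨(k.factorial : ℤ) * c.den, ?_, Additive.ofMul q, ?_⟩
    · have := k.factorial_ne_zero
      have := c.den_nz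
      positivity
    · rw [hLq]
      apply Subtype.ext
      change ((k.factorial : ℤ) * (c.den : ℤ)) • (c • ι x) = ι z
      have e2 : (c.den : ℚ) * c = c.num := Rat.den_mul_eq_num c
      rw [← Int.cast_smul_eq_zsmul ℚ, smul_smul]
      have : (((k.factorial : ℤ) * (c.den : ℤ) : ℤ) : ℚ) * c = (k.factorial : ℚ) * (c.num : ℚ) := by
        push_cast
        rw [mul_assoc, e2]
      rw [this, hz, Algebra.smul_def]
      simp only [map_mul, map_natCast, map_intCast]
      ring
  have e1 := LinearMap.rank_range_add_rank_ker L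
  have e2 : Module.rank ℤ (LinearMap.range L) = Module.rank ℤ V := by
    refine rank_of_torsion (LinearMap.range L).subtype (fun x hx => ⟨1, one_ne_zero, ?_⟩)
      (fun v => ?_)
    · rw [one_smul]
      exact Subtype.ext hx
    · obtain ⟨m, hm, q, hq⟩ := hcok v
      exact ⟨m, hm, ⟨L q, LinearMap.mem_range_self _ _⟩, hq⟩
  have e3 : Module.rank ℤ I = Module.rank ℤ V := by
    let φ : I →+ V :=
      { toFun := fun x => ⟨ι x, hιV _ x.2⟩
        map_zero' := Subtype.ext (by simp)
        map_add' := fun x y => Subtype.ext (by simp) }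
    refine rank_of_torsion φ.toIntLinearMap (fun x hx => ?_) (fun v => ?_)
    · have h1 : ι (x : U) = 0 := congrArg Subtype.val hx
      obtain ⟨m, hm, h⟩ := hι0 _ h1
      refine ⟨m, by exact_mod_cast hm.ne', Subtype.ext ?_⟩
      have : (((m : ℤ) • x : I) : U) = (m : U) * x := by
        rw [Submodule.coe_smul_of_tower]
        simp
      rw [this, h]
      rfl
    · obtain ⟨v, hv⟩ := v
      obtain ⟨c, x, hx, rfl⟩ := (hVmem v).mp hv
      refine ⟨c.den, by exact_mod_cast c.den_nz, ⟨(c.num : U) * x, I.mul_mem_left _ hx⟩,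
        Subtype.ext ?_⟩
      change (c.den : ℤ) • (c • ι x) = ι ((c.num : U) * x)
      rw [← Int.cast_smul_eq_zsmul ℚ, smul_smul]
      have : (((c.den : ℤ)) : ℚ) * c = (c.num : ℚ) := by
        push_cast
        exact Rat.den_mul_eq_num c
      rw [this, Algebra.smul_def]
      simp only [map_mul, map_intCast]
  have e4 : Module.rank ℤ (Additive D) = Module.rank ℤ (LinearMap.ker L) := by
    let φ : Additive D →+ LinearMap.ker L :=
      { toFun := fun x => ⟨Additive.ofMul (x.toMul : Q), hker2 _ x.toMul.2⟩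
        map_zero' := Subtype.ext rfl
        map_add' := fun x y => Subtype.ext rfl }
    refine rank_of_torsion φ.toIntLinearMap (fun x hx => ⟨1, one_ne_zero, ?_⟩) (fun v => ?_)
    · rw [one_smul]
      have h1 : (x.toMul : Q) = 1 := congrArg (fun z : LinearMap.ker L => (z : Additive Q).toMul) hx
      have h2 : x.toMul = 1 := Subtype.ext h1
      exact h2
    · obtain ⟨v, hv⟩ := v
      obtain ⟨M, hM, h⟩ := hker1 v.toMul hv
      refine ⟨M, by exact_mod_cast hM.ne', Additive.ofMul ⟨v.toMul ^ M, h⟩, Subtype.ext ?_⟩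
      change (M : ℤ) • v = Additive.ofMul (v.toMul ^ M)
      rw [natCast_zsmul, ofMul_pow, ofMul_toMul]
  rw [← e1, e2, e4, e3, add_comm]

end Pool.Agent.H465.R0
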