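import Mathlib
import Pool.Agent.H465.R0.Exp

/-! A surjective derivation from an abelian group of finite torsion-free rank. -/

set_option autoImplicit false

namespace Pool.Agent.H465.R0

open Cardinal TensorProduct

universe u

theorem rank_cover {U Q : Type u} [CommRing U] [CommGroup Q]
    (hfin : Module.rank ℤ (Additive Q) < ℵ₀)
    (I : Ideal U) (f : Q →* U)
    (hf : ∀ x ∈ I, ∃ q, f q = 1 + x) (hf' : ∀ q, f q - 1 ∈ I) (D : Subgroup Q)
    (hD : ∀ q, q ∈ D ↔ f q = 1) :
    Module.rank ℤ (Additive Q) = Module.rank ℤ (Additive D) + Module.rank ℤ I := by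
  have hloc : IsLocalizedModule (nonZeroDivisors ℤ) (TensorProduct.mk ℤ ℚ U 1) :=
    (isLocalizedModule_iff_isBaseChange (nonZeroDivisors ℤ) ℚ _).mpr
      (TensorProduct.isBaseChange ℤ U ℚ)
  let ι : U →+* (ℚ ⊗[ℤ] U) := (Algebra.TensorProduct.includeRight : U →ₐ[ℤ] (ℚ ⊗[ℤ] U)).toRingHom
  have hι : ∀ x, ι x = TensorProduct.mk ℤ ℚ U 1 x := fun x => rfl
  refine rank_cover_aux ι (fun x hx => ?_) (fun a => ?_) I (nil_of_cover I hfin f hf) f hf hf' D hD
  · rw [hι] at hx
    obtain ⟨m, hm⟩ := (IsLocalizedModule.eq_zero_iff (nonZeroDivisors ℤ) _).mp hx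
    have hm0 : (m : ℤ) ≠ 0 := nonZeroDivisors.coe_ne_zero m
    refine ⟨(m : ℤ).natAbs, Int.natAbs_pos.mpr hm0, ?_⟩
    have h1 : ((m : ℤ) : U) * x = 0 := by
      have : (m : ℤ) • x = 0 := hm
      rwa [zsmul_eq_mul] at this
    rcases Int.natAbs_eq (m : ℤ) with h | h
    · rw [h, Int.cast_natCast] at h1
      exact h1
    · rw [h, Int.cast_neg, Int.cast_natCast, neg_mul, neg_eq_zero] at h1
      exact h1
  · obtain ⟨⟨s, m⟩, hm⟩ := IsLocalizedModule.surj (nonZeroDivisors ℤ) (TensorProduct.mk ℤ ℚ U 1) a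
    have hm0 : (m : ℤ) ≠ 0 := nonZeroDivisors.coe_ne_zero m
    have hm' : (m : ℤ) • a = ι s := hm
    refine ⟨((m : ℤ) : ℚ)⁻¹, s, ?_⟩
    rw [← hm', ← Int.cast_smul_eq_zsmul ℚ, smul_smul, inv_mul_cancel₀, one_smul]
    exact_mod_cast hm0

theorem rank_cover' {U Q N : Type u} [CommRing U] [CommGroup Q] [AddCommGroup N]
    (hfin : Module.rank ℤ (Additive Q) < ℵ₀) (j : N →+ U) (hj : Function.Injective j)
    (hjI : ∀ (u : U) (n : N), ∃ n', u * j n = j n') (δ : Q → N) (hs : Function.Surjective δ)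
    (hδ1 : δ 1 = 0)
    (hmul : ∀ q p, j (δ (q * p)) = j (δ q) + j (δ p) + j (δ q) * j (δ p)) (D : Subgroup Q)
    (hD : ∀ q, q ∈ D ↔ δ q = 0) :
    Module.rank ℤ (Additive Q) = Module.rank ℤ (Additive D) + Module.rank ℤ N := by
  let I : Ideal U :=
    { carrier := Set.range j
      zero_mem' := ⟨0, map_zero j⟩
      add_mem' := by
        rintro _ _ ⟨a, rfl⟩ ⟨b, rfl⟩
        exact ⟨a + b, map_add j a b⟩
      smul_mem' := by
        rintro u _ ⟨a, rfl⟩
        obtain ⟨n, hn⟩ := hjI u a
        exact ⟨n, hn.symm⟩ }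
  have hI : ∀ x, x ∈ I ↔ ∃ n, j n = x := fun x => Iff.rfl
  let f : Q →* U :=
    { toFun := fun q => 1 + j (δ q)
      map_one' := by rw [hδ1, map_zero, add_zero]
      map_mul' := by
        intro q p
        rw [hmul]
        ring }
  have hfq : ∀ q, f q = 1 + j (δ q) := fun q => rfl
  have key := rank_cover hfin I f (fun x hx => by
      obtain ⟨n, rfl⟩ := (hI x).mp hx
      obtain ⟨q, rfl⟩ := hs n
      exact ⟨q, rfl⟩) (fun q => by
      rw [hfq, hI]
      exact ⟨δ q, by ring⟩) D (fun q => by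
      rw [hD, hfq]
      constructor
      · intro h0
        rw [h0, map_zero, add_zero]
      · intro h0
        have h1 : j (δ q) = 0 := by
          have : 1 + j (δ q) = 1 + 0 := by rw [h0, add_zero]
          exact add_left_cancel this
        exact hj (by rw [h1, map_zero]))
  have e : Module.rank ℤ N = Module.rank ℤ I := by
    let φ : N →+ I :=
      { toFun := fun n => ⟨j n, n, rfl⟩
        map_zero' := Subtype.ext (map_zero j)
        map_add' := fun a b => Subtype.ext (map_add j a b) }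
    refine rank_of_torsion φ.toIntLinearMap (fun x hx => ⟨1, one_ne_zero, ?_⟩)
      (fun v => ?_)
    · rw [one_smul]
      have h1 : j x = 0 := congrArg Subtype.val hx
      exact hj (by rw [h1, map_zero])
    · obtain ⟨v, n, rfl⟩ := v
      exact ⟨1, one_ne_zero, n, by rw [one_smul]; rfl⟩
  rw [key, e]

theorem ring_rank {Q N : Type u} [CommGroup Q] [NonUnitalCommRing N]
    (hfin : Module.rank ℤ (Additive Q) < ℵ₀) (δ : Q → N) (hs : Function.Surjective δ)
    (hδ1 : δ 1 = 0) (hmul : ∀ q p, δ (q * p) = δ q + δ p + δ q * δ p) (D : Subgroup Q)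
    (hD : ∀ q, q ∈ D ↔ δ q = 0) :
    Module.rank ℤ (Additive Q) = Module.rank ℤ (Additive D) + Module.rank ℤ N := by
  let j : N →+ Unitization ℤ N :=
    { toFun := fun n => (n : Unitization ℤ N)
      map_zero' := Unitization.inr_zero _
      map_add' := fun a b => Unitization.inr_add _ _ _ }
  have hj : ∀ n, j n = (n : Unitization ℤ N) := fun n => rfl
  refine rank_cover' (U := Unitization ℤ N) hfin j (fun a b hab => ?_) (fun u n => ?_) δ hs hδ1
    (fun q p => ?_) D hD
  · rw [hj, hj] at hab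
    exact Unitization.inr_injective hab
  · refine ⟨u.fst • n + u.snd * n, ?_⟩
    rw [hj, hj]
    apply Unitization.ext
    · simp
    · rw [Unitization.snd_mul, Unitization.fst_inr, Unitization.snd_inr, Unitization.snd_inr]
      simp
  · rw [hj, hj, hj, hmul, ← Unitization.inr_mul, ← Unitization.inr_add, ← Unitization.inr_add]

theorem deriv_rank {Q N : Type u} [CommGroup Q] [AddCommGroup N]
    (hfin : Module.rank ℤ (Additive Q) < ℵ₀) (δ : Q → N) (T : Q → N →+ N)
    (h : ∀ q p, δ (q * p) = δ q + T q (δ p)) (hs : Function.Surjective δ) (D : Subgroup Q)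
    (hD : ∀ q, q ∈ D ↔ δ q = 0) :
    Module.rank ℤ (Additive Q) = Module.rank ℤ (Additive D) + Module.rank ℤ N := by
  classical
  obtain ⟨g, hg⟩ := hs.hasRightInverse
  have hTT : ∀ q p n, T (q * p) n = T q (T p n) := by
    intro q p n
    obtain ⟨r, rfl⟩ := hs n
    have h1 := h (q * p) r
    have h2 := h q (p * r)
    rw [h p r, map_add, ← add_assoc, ← h q p, ← mul_assoc] at h2
    rw [h2] at h1
    exact (add_left_cancel h1).symm
  have hTc : ∀ q p n, T q (T p n) = T p (T q n) := by
    intro q p n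
    rw [← hTT, mul_comm, hTT]
  have hB : ∀ q p, T (g (δ q)) (δ p) - δ p = δ (q * p) - δ q - δ p := by
    intro q p
    have h1 := h (g (δ q)) p
    rw [hg (δ q), mul_comm, h p (g (δ q)), hg (δ q), ← h p q, mul_comm] at h1
    rw [h1]
    abel
  have hcomm : ∀ a b : N, T (g a) b - b = T (g b) a - a := by
    intro a b
    obtain ⟨q, rfl⟩ := hs a
    obtain ⟨p, rfl⟩ := hs b
    rw [hB, hB, mul_comm]
    abel
  let R : NonUnitalCommRing N :=
    { (inferInstance : AddCommGroup N) with
      mul := fun a b => T (g a) b - b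
      left_distrib := fun a b c => by
        change T (g a) (b + c) - (b + c) = (T (g a) b - b) + (T (g a) c - c)
        rw [map_add]; abel
      right_distrib := fun a b c => by
        change T (g (a + b)) c - c = (T (g a) c - c) + (T (g b) c - c)
        rw [hcomm (a + b) c, hcomm a c, hcomm b c, map_add]; abel
      zero_mul := fun a => by
        change T (g 0) a - a = 0
        rw [hcomm, map_zero, sub_zero]
      mul_zero := fun a => by
        change T (g a) 0 - 0 = 0
        rw [map_zero, sub_zero]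
      mul_assoc := fun a b c => by
        change T (g (T (g a) b - b)) c - c = T (g a) (T (g b) c - c) - (T (g b) c - c)
        rw [hcomm (T (g a) b - b) c, hcomm b c, map_sub, map_sub, hTc (g c) (g a) b]
        abel
      mul_comm := fun a b => hcomm a b }
  have hδ1 : δ 1 = 0 := by
    obtain ⟨r, hr⟩ := hs 0
    have h3 := h 1 r
    rw [one_mul, hr, map_zero, add_zero] at h3
    exact h3.symm
  have hm : ∀ q p, δ (q * p) = δ q + δ p + (T (g (δ q)) (δ p) - δ p) := by
    intro q p
    rw [hB]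
    abel
  exact @ring_rank Q N _ R hfin δ hs hδ1 hm D hD

end Pool.Agent.H465.R0
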