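import Mathlib
import Pool.Agent.H465.R0.Deriv

/-! Ranks in products of two subgroups of a metabelian group. -/

set_option autoImplicit false

namespace Pool.Agent.H465.R0

open Cardinal

universe u

/-- the rank of a subgroup of an abelian group -/
noncomputable def S {H : Type u} [CommGroup H] (Z : Subgroup H) : Cardinal :=
  Module.rank ℤ (Additive Z)

theorem rank_iso {X Y : Type u} [CommGroup X] [CommGroup Y] (f : X →* Y)
    (hi : Function.Injective f) (hs : Function.Surjective f) :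
    Module.rank ℤ (Additive X) = Module.rank ℤ (Additive Y) := by
  refine rank_of_torsion (MonoidHom.toAdditive f).toIntLinearMap (fun x hx => ⟨1, one_ne_zero, ?_⟩)
    (fun y => ?_)
  · rw [one_smul]
    have h1 : f x.toMul = 1 := hx
    have h2 : x.toMul = 1 := hi (by rw [h1, map_one])
    exact h2
  · obtain ⟨x, hx⟩ := hs y.toMul
    exact ⟨1, one_ne_zero, Additive.ofMul x, by rw [one_smul]; exact hx.symm⟩

theorem rank_hom {X Y : Type u} [CommGroup X] [CommGroup Y] (f : X →* Y) :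
    Module.rank ℤ (Additive X) = S f.ker + S f.range := by
  let L : Additive X →ₗ[ℤ] Additive Y := (MonoidHom.toAdditive f).toIntLinearMap
  have hL : ∀ x : X, L (Additive.ofMul x) = Additive.ofMul (f x) := fun x => rfl
  have e1 := LinearMap.rank_range_add_rank_ker L
  have e2 : S f.range = Module.rank ℤ (LinearMap.range L) := by
    let φ : Additive f.range →+ LinearMap.range L :=
      { toFun := fun x => ⟨Additive.ofMul (x.toMul : Y), by
          obtain ⟨z, hz⟩ := x.toMul.2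
          exact ⟨Additive.ofMul z, by rw [hL, hz]⟩⟩
        map_zero' := Subtype.ext rfl
        map_add' := fun x y => Subtype.ext rfl }
    refine rank_of_torsion φ.toIntLinearMap (fun x hx => ⟨1, one_ne_zero, ?_⟩)
      (fun y => ⟨1, one_ne_zero, ?_⟩)
    · rw [one_smul]
      have h1 : (x.toMul : Y) = 1 := congrArg (fun z : LinearMap.range L => (z : Additive Y).toMul) hx
      have h2 : x.toMul = 1 := Subtype.ext h1
      exact h2
    · obtain ⟨y, z, hz⟩ := y
      refine ⟨Additive.ofMul ⟨y.toMul, z.toMul, ?_⟩, ?_⟩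
      · rw [← hz]; rfl
      · rw [one_smul]; rfl
  have e3 : S f.ker = Module.rank ℤ (LinearMap.ker L) := by
    let φ : Additive f.ker →+ LinearMap.ker L :=
      { toFun := fun x => ⟨Additive.ofMul (x.toMul : X), by
          have := x.toMul.2
          change f (x.toMul : X) = 1 at this
          rw [LinearMap.mem_ker, hL, this]
          rfl⟩
        map_zero' := Subtype.ext rfl
        map_add' := fun x y => Subtype.ext rfl }
    refine rank_of_torsion φ.toIntLinearMap (fun x hx => ⟨1, one_ne_zero, ?_⟩)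
      (fun y => ⟨1, one_ne_zero, ?_⟩)
    · rw [one_smul]
      have h1 : (x.toMul : X) = 1 := congrArg (fun z : LinearMap.ker L => (z : Additive X).toMul) hx
      have h2 : x.toMul = 1 := Subtype.ext h1
      exact h2
    · obtain ⟨y, hy⟩ := y
      refine ⟨Additive.ofMul ⟨y.toMul, hy⟩, ?_⟩
      rw [one_smul]
      rfl
  rw [e2, e3, add_comm, e1]

theorem S_top {H : Type u} [CommGroup H] : S (⊤ : Subgroup H) = Module.rank ℤ (Additive H) :=
  rank_iso (⊤ : Subgroup H).subtype Subtype.val_injective (fun x => ⟨⟨x, trivial⟩, rfl⟩)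

theorem S_map {H W : Type u} [CommGroup H] [CommGroup W] (Z : Subgroup H) (ψ : H →* W) :
    S Z = S (Z ⊓ ψ.ker) + S (Z.map ψ) := by
  have h := rank_hom (ψ.comp Z.subtype)
  have e1 : S (ψ.comp Z.subtype).ker = S (Z ⊓ ψ.ker) := by
    let f : (ψ.comp Z.subtype).ker →* ↥(Z ⊓ ψ.ker) :=
      { toFun := fun x => ⟨(x : Z), ⟨(x : Z).2, x.2⟩⟩
        map_one' := rfl
        map_mul' := fun _ _ => rfl }
    refine rank_iso f (fun x y hxy => ?_) (fun y => ?_)
    · have h1 : ((x : Z) : H) = ((y : Z) : H) :=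
        congrArg (fun z : ↥(Z ⊓ ψ.ker) => (z : H)) hxy
      exact Subtype.ext (Subtype.ext h1)
    · exact ⟨⟨⟨y, y.2.1⟩, y.2.2⟩, rfl⟩
  have e2 : S (ψ.comp Z.subtype).range = S (Z.map ψ) := by
    have : (ψ.comp Z.subtype).range = Z.map ψ := by
      ext w
      constructor
      · rintro ⟨z, rfl⟩
        exact ⟨z, z.2, rfl⟩
      · rintro ⟨z, hz, rfl⟩
        exact ⟨⟨z, hz⟩, rfl⟩
    rw [this]
  rw [e1, e2] at h
  exact h

theorem S_sup {H : Type u} [CommGroup H] (X Y : Subgroup H) :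
    S (X ⊔ Y) + S (X ⊓ Y) = S X + S Y := by
  have h1 := S_map (X ⊔ Y) (QuotientGroup.mk' Y)
  have h2 := S_map X (QuotientGroup.mk' Y)
  rw [QuotientGroup.ker_mk'] at h1 h2
  have h3 : (X ⊔ Y) ⊓ Y = Y := inf_eq_right.mpr le_sup_right
  have h4 : (X ⊔ Y).map (QuotientGroup.mk' Y) = X.map (QuotientGroup.mk' Y) := by
    rw [Subgroup.map_sup, QuotientGroup.map_mk'_self, sup_bot_eq]
  rw [h3, h4] at h1
  rw [h1, h2]
  ac_rfl

theorem S_quot {H : Type u} [CommGroup H] (P : Subgroup H) :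
    Module.rank ℤ (Additive H) = S P + Module.rank ℤ (Additive (H ⧸ P)) := by
  have h := rank_hom (QuotientGroup.mk' P)
  rw [QuotientGroup.ker_mk'] at h
  have h2 : (QuotientGroup.mk' P).range = ⊤ :=
    MonoidHom.range_eq_top.mpr (QuotientGroup.mk'_surjective P)
  rw [h2, S_top] at h
  exact h

/-- the key identity -/
theorem key {G K C : Type u} [Group G] [CommGroup K] [CommGroup C] (j : K →* G)
    (hj : Function.Injective j) (π : G →* C) (hex : ∀ x, π x = 1 ↔ ∃ k, j k = x)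
    (A B : Subgroup G) (hAB : ∀ g, ∃ a ∈ A, ∃ b ∈ B, g = a * b)
    (hfin : S (A.map π ⊓ B.map π) < ℵ₀) :
    S (A.map π ⊓ B.map π) = S ((A ⊓ B).map π) +
      Module.rank ℤ (Additive (K ⧸ (A.comap j ⊔ B.comap j))) := by
  classical
  set P := A.comap j ⊔ B.comap j with hP
  have hjk : ∀ k, π (j k) = 1 := fun k => (hex _).mpr ⟨k, rfl⟩
  -- the elements `a` and `b`
  have hq : ∀ q : ↥(A.map π ⊓ B.map π), ∃ ab : G × G, ab.1 ∈ A ∧ ab.2 ∈ B ∧ π ab.1 = q ∧
      π ab.2 = q := by
    rintro ⟨q, ⟨a, ha, rfl⟩, ⟨b, hb, hb'⟩⟩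
    exact ⟨(a, b), ha, hb, rfl, hb'⟩
  choose ab haA hbB hπa hπb using hq
  -- conjugation on `K`
  have hconj : ∀ g : G, ∀ k : K, ∃ k' : K, j k' = g * j k * g⁻¹ := by
    intro g k
    obtain ⟨k', hk'⟩ := (hex (g * j k * g⁻¹)).mp (by
      rw [map_mul, map_mul, hjk, mul_one, map_inv, mul_inv_cancel])
    exact ⟨k', hk'⟩
  choose cj hcj using hconj
  let cjh : G → K →* K := fun g =>
    { toFun := cj g
      map_one' := hj (by rw [hcj, map_one, mul_one, mul_inv_cancel])
      map_mul' := fun x y => hj (by rw [map_mul, hcj, hcj, hcj, map_mul]; group) }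
  have hcjh : ∀ g k, j (cjh g k) = g * j k * g⁻¹ := hcj
  -- invariance of `P`
  have hinv : ∀ a ∈ A, ∀ b ∈ B, π a = π b → ∀ k ∈ P, cjh a k ∈ P := by
    intro a ha b hb hab k hk
    rw [hP, Subgroup.mem_sup] at hk
    obtain ⟨u, hu, v, hv, rfl⟩ := hk
    rw [map_mul]
    refine P.mul_mem (Subgroup.mem_sup_left ?_) (Subgroup.mem_sup_right ?_)
    · rw [Subgroup.mem_comap, hcjh]
      exact A.mul_mem (A.mul_mem ha hu) (A.inv_mem ha)
    · rw [Subgroup.mem_comap, hcjh]
      obtain ⟨c, hc⟩ := (hex (a * b⁻¹)).mp (by rw [map_mul, map_inv, hab, mul_inv_cancel])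
      obtain ⟨d, hd⟩ : ∃ d, d = cj b v := ⟨_, rfl⟩
      have h1 : a = j c * b := by rw [hc]; group
      have h2 : a * j v * a⁻¹ = j c * (b * j v * b⁻¹) * (j c)⁻¹ := by rw [h1]; group
      have h3 : b * j v * b⁻¹ = j d := by rw [hd, hcj]
      rw [h2, h3, ← map_inv, ← map_mul, ← map_mul, mul_comm c d, mul_inv_cancel_right, ← h3]
      exact B.mul_mem (B.mul_mem hb hv) (B.inv_mem hb)
  -- the class of `b a⁻¹`
  have hba : ∀ a b : G, π a = π b → ∃ k, j k = b * a⁻¹ := by
    intro a b hab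
    exact (hex _).mp (by rw [map_mul, map_inv, hab, mul_inv_cancel])
  have hkq : ∀ q, ∃ k, j k = (ab q).2 * (ab q).1⁻¹ := fun q => hba _ _ ((hπa q).trans (hπb q).symm)
  choose κ hκ using hkq
  let N := K ⧸ P
  let mk : K →* N := QuotientGroup.mk' P
  have hmk : ∀ x y : K, x * y⁻¹ ∈ P → mk x = mk y := by
    intro x y hxy
    have : mk (x * y⁻¹) = 1 := (QuotientGroup.eq_one_iff _).mpr hxy
    rw [map_mul, map_inv] at this
    exact mul_inv_eq_one.mp this
  have hW : ∀ q : ↥(A.map π ⊓ B.map π), ∀ a ∈ A, ∀ b ∈ B, π a = (q : C) → π b = (q : C) → ∀ k, j k = b * a⁻¹ → mk (κ q) = mk k := by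
    intro q a ha b hb hqa hqb k hk
    apply hmk
    -- `a = a_q x`, `b = b_q y`
    obtain ⟨x, hx⟩ := (hex ((ab q).1⁻¹ * a)).mp (by
      rw [map_mul, map_inv, hπa, hqa, inv_mul_cancel])
    obtain ⟨y, hy⟩ := (hex ((ab q).2⁻¹ * b)).mp (by
      rw [map_mul, map_inv, hπb, hqb, inv_mul_cancel])
    have hxA : x ∈ P := Subgroup.mem_sup_left (by
      rw [Subgroup.mem_comap, hx]
      exact A.mul_mem (A.inv_mem (haA q)) ha)
    have hyB : y ∈ P := Subgroup.mem_sup_right (by
      rw [Subgroup.mem_comap, hy]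
      exact B.mul_mem (B.inv_mem (hbB q)) hb)
    have h1 : k = κ q * cjh (ab q).1 (y * x⁻¹) := by
      apply hj
      rw [hk, map_mul, hκ, hcjh, map_mul, map_inv, hx, hy]
      group
    rw [h1, mul_inv_rev, mul_comm, mul_assoc, inv_mul_cancel, mul_one]
    exact P.inv_mem (hinv _ (haA q) _ (hbB q) ((hπa q).trans (hπb q).symm) _
      (P.mul_mem hyB (P.inv_mem hxA)))
  let δ : ↥(A.map π ⊓ B.map π) → Additive N := fun q => Additive.ofMul (mk (κ q))
  let T : ↥(A.map π ⊓ B.map π) → Additive N →+ Additive N := fun q =>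
    MonoidHom.toAdditive (QuotientGroup.map P P (cjh (ab q).1) (fun k hk =>
      hinv _ (haA q) _ (hbB q) ((hπa q).trans (hπb q).symm) k hk))
  have hT : ∀ q k, T q (Additive.ofMul (mk k)) = Additive.ofMul (mk (cjh (ab q).1 k)) :=
    fun q k => rfl
  let D : Subgroup ↥(A.map π ⊓ B.map π) := ((A ⊓ B).map π).subgroupOf (A.map π ⊓ B.map π)
  have main := deriv_rank (Q := ↥(A.map π ⊓ B.map π)) (N := Additive N) hfin δ T (fun q p => by
      change Additive.ofMul (mk (κ (q * p))) = Additive.ofMul (mk (κ q)) + T q (Additive.ofMul (mk (κ p)))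
      rw [hT, ← ofMul_mul, ← map_mul]
      congr 1
      refine hW (q * p) ((ab q).1 * (ab p).1) (A.mul_mem (haA q) (haA p))
        ((ab q).2 * (ab p).2) (B.mul_mem (hbB q) (hbB p)) ?_ ?_ _ ?_
      · rw [map_mul, hπa, hπa]; rfl
      · rw [map_mul, hπb, hπb]; rfl
      · rw [map_mul, hcjh, hκ, hκ]
        group) (fun n => by
      obtain ⟨k, hk⟩ := QuotientGroup.mk'_surjective P n.toMul
      obtain ⟨a, ha, b, hb, hab⟩ := hAB (j k)⁻¹
      have h1 : j k = b⁻¹ * a⁻¹ := by
        rw [← mul_inv_rev, ← hab, inv_inv]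
      have h2 : π a = π b⁻¹ := by
        have := hjk k
        rw [h1, map_mul, map_inv, map_inv] at this
        rw [map_inv]
        have h3 := mul_inv_eq_one.mp this
        exact h3.symm
      refine ⟨⟨π a, ⟨a, ha, rfl⟩, ⟨b⁻¹, B.inv_mem hb, h2.symm⟩⟩, ?_⟩
      have h4 := hW ⟨π a, ⟨a, ha, rfl⟩, ⟨b⁻¹, B.inv_mem hb, h2.symm⟩⟩ a ha b⁻¹ (B.inv_mem hb) rfl
        h2.symm k h1
      change Additive.ofMul (mk _) = n
      rw [h4]
      exact hk) D (fun q => by
      change (q : C) ∈ (A ⊓ B).map π ↔ mk (κ q) = 1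
      constructor
      · rintro ⟨x, ⟨hxA, hxB⟩, hx⟩
        have := hW q x hxA x hxB hx hx 1 (by rw [map_one, mul_inv_cancel])
        rw [this, map_one]
      · intro h0
        have h1 : κ q ∈ P := (QuotientGroup.eq_one_iff _).mp h0
        rw [hP, Subgroup.mem_sup] at h1
        obtain ⟨u, hu, v, hv, huv⟩ := h1
        rw [Subgroup.mem_comap] at hu hv
        have h2 : j v * j u = (ab q).2 * (ab q).1⁻¹ := by
          rw [← map_mul, mul_comm, huv, hκ]
        have h3 : j u * (ab q).1 = (j v)⁻¹ * (ab q).2 := by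
          have : j u = (j v)⁻¹ * ((ab q).2 * (ab q).1⁻¹) := by rw [← h2]; group
          rw [this]; group
        refine ⟨j u * (ab q).1, ⟨A.mul_mem hu (haA q), ?_⟩, ?_⟩
        · rw [h3]
          exact B.mul_mem (B.inv_mem hv) (hbB q)
        · rw [map_mul, hjk, one_mul, hπa])
  have e1 : Module.rank ℤ (Additive D) = S ((A ⊓ B).map π) := by
    have hle : (A ⊓ B).map π ≤ A.map π ⊓ B.map π :=
      le_inf (Subgroup.map_mono inf_le_left) (Subgroup.map_mono inf_le_right)
    let f : D →* ↥((A ⊓ B).map π) :=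
      { toFun := fun x => ⟨((x : ↥(A.map π ⊓ B.map π)) : C), x.2⟩
        map_one' := rfl
        map_mul' := fun _ _ => rfl }
    refine rank_iso f (fun x y hxy => ?_) (fun y => ?_)
    · have h1 : ((x : ↥(A.map π ⊓ B.map π)) : C) = ((y : ↥(A.map π ⊓ B.map π)) : C) :=
        congrArg (fun z : ↥((A ⊓ B).map π) => (z : C)) hxy
      exact Subtype.ext (Subtype.ext h1)
    · exact ⟨⟨⟨y, hle y.2⟩, y.2⟩, rfl⟩
  rw [e1] at main
  exact main

/-- the rank identity, in terms of an abelian normal subgroup `K` with abelian quotient `C` -/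
theorem main_abs {G K C : Type u} [Group G] [CommGroup K] [CommGroup C] (j : K →* G)
    (hj : Function.Injective j) (π : G →* C) (hπ : Function.Surjective π)
    (hex : ∀ x, π x = 1 ↔ ∃ k, j k = x)
    (A B : Subgroup G) (hAB : ∀ g, ∃ a ∈ A, ∃ b ∈ B, g = a * b)
    (hfin : Module.rank ℤ (Additive C) < ℵ₀) :
    (Module.rank ℤ (Additive K) + Module.rank ℤ (Additive C)) +
      (S ((A ⊓ B).comap j) + S ((A ⊓ B).map π)) =
    (S (A.comap j) + S (A.map π)) + (S (B.comap j) + S (B.map π)) := by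
  have hle : S (A.map π ⊓ B.map π) ≤ Module.rank ℤ (Additive C) := by
    have h := S_map (⊤ : Subgroup C) (QuotientGroup.mk' (A.map π ⊓ B.map π))
    rw [QuotientGroup.ker_mk', top_inf_eq, S_top] at h
    rw [h]
    exact self_le_add_right _ _
  have h1 := key j hj π hex A B hAB (lt_of_le_of_lt hle hfin)
  have h2 := S_sup (A.map π) (B.map π)
  have h3 : A.map π ⊔ B.map π = ⊤ := by
    rw [eq_top_iff]
    intro c _
    obtain ⟨g, rfl⟩ := hπ c
    obtain ⟨a, ha, b, hb, rfl⟩ := hAB g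
    rw [map_mul]
    exact Subgroup.mul_mem_sup ⟨a, ha, rfl⟩ ⟨b, hb, rfl⟩
  rw [h3, S_top] at h2
  have h4 := S_sup (A.comap j) (B.comap j)
  have h5 := S_quot (A.comap j ⊔ B.comap j)
  have h6 : A.comap j ⊓ B.comap j = (A ⊓ B).comap j := (Subgroup.comap_inf A B j).symm
  rw [h6] at h4
  rw [h5]
  calc (S (A.comap j ⊔ B.comap j) + Module.rank ℤ (Additive (K ⧸ (A.comap j ⊔ B.comap j))) +
        Module.rank ℤ (Additive C)) + (S ((A ⊓ B).comap j) + S ((A ⊓ B).map π))
      = (S (A.comap j ⊔ B.comap j) + S ((A ⊓ B).comap j)) + (Module.rank ℤ (Additive C) +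
        (S ((A ⊓ B).map π) + Module.rank ℤ (Additive (K ⧸ (A.comap j ⊔ B.comap j))))) := by
        ac_rfl
    _ = (S (A.comap j) + S (B.comap j)) + (S (A.map π) + S (B.map π)) := by rw [h4, ← h1, h2]
    _ = _ := by ac_rfl

end Pool.Agent.H465.R0
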