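import Mathlib
import Pool.Agent.H465.R0.Grp

/-! The torsion-free rank of a metabelian group through the derived series, and the formula for
products of two subgroups. -/

set_option autoImplicit false

namespace Pool.Agent.H465.R0

open Cardinal

universe u

/-- the sum of the ranks of the abelian factors of the derived series -/
noncomputable def r0 (H : Type u) [Group H] : Cardinal.{u} :=
  Cardinal.sum (fun n : ℕ => Module.rank ℤ (Additive (Abelianization ↥(derivedSeries H n))))

theorem rho_congr {X Y : Type u} [Group X] [Group Y] (e : X ≃* Y) :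
    Module.rank ℤ (Additive (Abelianization X)) = Module.rank ℤ (Additive (Abelianization Y)) :=
  rank_iso e.abelianizationCongr.toMonoidHom e.abelianizationCongr.injective
    e.abelianizationCongr.surjective

theorem rho_comm {X : Type u} [CommGroup X] :
    Module.rank ℤ (Additive (Abelianization X)) = Module.rank ℤ (Additive X) :=
  (rank_iso (Abelianization.equivOfComm (H := X)).toMonoidHom
    (Abelianization.equivOfComm (H := X)).injective
    (Abelianization.equivOfComm (H := X)).surjective).symm

theorem r0_formula {H K C : Type u} [Group H] [CommGroup K] [CommGroup C] (j : K →* H)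
    (hj : Function.Injective j) (π : H →* C) (hex : ∀ x, π x = 1 ↔ ∃ k, j k = x) :
    r0 H = Module.rank ℤ (Additive K) + S π.range := by
  have hcle : commutator H ≤ π.ker := Abelianization.commutator_subset_ker π
  have hcom : ∀ x ∈ commutator H, ∃ k, j k = x := fun x hx => (hex x).mp (hcle hx)
  let Z : Subgroup K := (commutator H).comap j
  have h1 : Module.rank ℤ (Additive (Abelianization ↥(derivedSeries H 1))) = S Z := by
    have e0 : derivedSeries H 1 = commutator H := derivedSeries_one H
    rw [e0]
    let f : Z →* ↥(commutator H) :=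
      { toFun := fun z => ⟨j (z : K), z.2⟩
        map_one' := Subtype.ext (map_one j)
        map_mul' := fun x y => Subtype.ext (map_mul j (x : K) (y : K)) }
    have hf : Function.Bijective f := by
      constructor
      · intro x y hxy
        have : j (x : K) = j (y : K) := congrArg (fun z : ↥(commutator H) => (z : H)) hxy
        exact Subtype.ext (hj this)
      · rintro ⟨y, hy⟩
        obtain ⟨k, hk⟩ := hcom y hy
        refine ⟨⟨k, ?_⟩, Subtype.ext hk⟩
        change j k ∈ commutator H
        rw [hk]
        exact hy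
    rw [← rho_congr (MulEquiv.ofBijective f hf)]
    exact rho_comm
  have h0 : Module.rank ℤ (Additive (Abelianization ↥(derivedSeries H 0))) =
      Module.rank ℤ (Additive (Abelianization H)) := by
    rw [derivedSeries_zero]
    exact rho_congr Subgroup.topEquiv
  have h2 : derivedSeries H 2 = ⊥ := by
    rw [eq_bot_iff]
    change ⁅derivedSeries H 1, derivedSeries H 1⁆ ≤ ⊥
    rw [derivedSeries_one, Subgroup.commutator_le]
    intro x hx y hy
    obtain ⟨k, rfl⟩ := hcom x hx
    obtain ⟨l, rfl⟩ := hcom y hy
    rw [Subgroup.mem_bot, commutatorElement_eq_one_iff_mul_comm, ← map_mul, mul_comm, map_mul]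
  have h3 : ∀ n : ℕ, Module.rank ℤ (Additive (Abelianization ↥(derivedSeries H (n + 1 + 1)))) = 0 := by
    intro n
    have e : derivedSeries H (n + 1 + 1) = ⊥ := by
      rw [eq_bot_iff, ← h2]
      exact derivedSeries_antitone H (by omega)
    rw [e, rank_eq_zero_iff]
    intro x
    refine ⟨1, one_ne_zero, ?_⟩
    rw [one_smul]
    obtain ⟨y, hy⟩ : ∃ y : ↥(⊥ : Subgroup H), Additive.ofMul (Abelianization.of y) = x := by
      obtain ⟨y, hy⟩ := QuotientGroup.mk_surjective x.toMul
      exact ⟨y, hy⟩
    have hy1 : y = 1 := Subsingleton.elim _ _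
    rw [← hy, hy1, map_one]
    rfl
  have h4 : r0 H = Module.rank ℤ (Additive (Abelianization H)) + S Z := by
    unfold r0
    rw [Cardinal.sum_nat_eq_add_sum_succ, Cardinal.sum_nat_eq_add_sum_succ, h0, h1]
    have : (fun i : ℕ => Module.rank ℤ (Additive (Abelianization ↥(derivedSeries H (i + 1 + 1))))) =
        fun _ => 0 := funext h3
    rw [this]
    simp
  let μ : K →* Abelianization H := Abelianization.of.comp j
  have h5 := rank_hom (Abelianization.lift π)
  have h6 := rank_hom μ
  have h7 : μ.ker = Z := by
    ext k
    change Abelianization.of (j k) = 1 ↔ j k ∈ commutator H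
    rw [← MonoidHom.mem_ker, Abelianization.ker_of]
  have h8 : μ.range = (Abelianization.lift π).ker := by
    ext x
    obtain ⟨y, rfl⟩ := QuotientGroup.mk_surjective x
    constructor
    · rintro ⟨k, hk⟩
      rw [← hk, MonoidHom.mem_ker]
      change π (j k) = 1
      exact (hex _).mpr ⟨k, rfl⟩
    · intro hy
      have hy' : π y = 1 := hy
      obtain ⟨k, rfl⟩ := (hex y).mp hy'
      exact ⟨k, rfl⟩
  have h9 : (Abelianization.lift π).range = π.range := by
    ext c
    constructor
    · rintro ⟨x, rfl⟩
      obtain ⟨y, rfl⟩ := QuotientGroup.mk_surjective x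
      exact ⟨y, rfl⟩
    · rintro ⟨y, rfl⟩
      exact ⟨Abelianization.of y, rfl⟩
  rw [h4, h5, h6, h7, h8, h9]
  ac_rfl

theorem r0_abs {G K C : Type u} [Group G] [CommGroup K] [CommGroup C] (j : K →* G)
    (hj : Function.Injective j) (π : G →* C) (hπ : Function.Surjective π)
    (hex : ∀ x, π x = 1 ↔ ∃ k, j k = x) (hfin : r0 G < ℵ₀)
    (A B : Subgroup G) (hAB : ∀ g, ∃ a ∈ A, ∃ b ∈ B, g = a * b) :
    r0 G + r0 ↥(A ⊓ B) = r0 ↥A + r0 ↥B := by
  have hG : r0 G = Module.rank ℤ (Additive K) + Module.rank ℤ (Additive C) := by
    rw [r0_formula j hj π hex, MonoidHom.range_eq_top.mpr hπ, S_top]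
  have hsub : ∀ X : Subgroup G, r0 ↥X = S (X.comap j) + S (X.map π) := by
    intro X
    let j' : ↥(X.comap j) →* X :=
      { toFun := fun k => ⟨j (k : K), k.2⟩
        map_one' := Subtype.ext (map_one j)
        map_mul' := fun x y => Subtype.ext (map_mul j (x : K) (y : K)) }
    have hj' : Function.Injective j' := by
      intro x y hxy
      have : j (x : K) = j (y : K) := congrArg (fun z : X => (z : G)) hxy
      exact Subtype.ext (hj this)
    have h := r0_formula j' hj' (π.comp X.subtype) (fun x => by
      constructor
      · intro hx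
        obtain ⟨k, hk⟩ := (hex (x : G)).mp hx
        refine ⟨⟨k, ?_⟩, Subtype.ext hk⟩
        rw [Subgroup.mem_comap, hk]
        exact x.2
      · rintro ⟨k, rfl⟩
        exact (hex _).mpr ⟨k, rfl⟩)
    have e : (π.comp X.subtype).range = X.map π := by
      ext w
      constructor
      · rintro ⟨z, rfl⟩
        exact ⟨z, z.2, rfl⟩
      · rintro ⟨z, hz, rfl⟩
        exact ⟨⟨z, hz⟩, rfl⟩
    rw [h, e]
    rfl
  have hC : Module.rank ℤ (Additive C) < ℵ₀ := by
    rw [hG] at hfin
    exact lt_of_le_of_lt (self_le_add_left _ _) hfin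
  rw [hG, hsub, hsub, hsub]
  exact main_abs j hj π hπ hex A B hAB hC

end Pool.Agent.H465.R0
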