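import Mathlib
import Pool.Agent.H465.R0.Fin

/-! The torsion-free rank of soluble groups is additive. -/

set_option autoImplicit false

namespace Pool.Agent.H465.R0

open Cardinal

universe u

theorem r0_congr {X Y : Type u} [Group X] [Group Y] (e : X ≃* Y) : r0 X = r0 Y := by
  unfold r0
  congr 1
  funext n
  have h : (derivedSeries X n).map e.toMonoidHom = derivedSeries Y n :=
    map_derivedSeries_eq (f := e.toMonoidHom) e.surjective n
  rw [← h]
  exact rho_congr ((derivedSeries X n).equivMapOfInjective e.toMonoidHom e.injective)

theorem map_derived_comm (H : Type u) [Group H] (n : ℕ) :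
    (derivedSeries ↥(commutator H) n).map (commutator H).subtype = derivedSeries H (n + 1) := by
  induction n with
  | zero =>
    rw [derivedSeries_zero, derivedSeries_one, ← MonoidHom.range_eq_map, Subgroup.range_subtype]
  | succ n ih =>
    rw [derivedSeries_succ, Subgroup.map_commutator, ih]
    rfl

theorem r0_succ (H : Type u) [Group H] :
    r0 H = Module.rank ℤ (Additive (Abelianization H)) + r0 ↥(commutator H) := by
  have h0 : Module.rank ℤ (Additive (Abelianization ↥(derivedSeries H 0))) =
      Module.rank ℤ (Additive (Abelianization H)) := by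
    rw [derivedSeries_zero]
    exact rho_congr Subgroup.topEquiv
  unfold r0
  rw [Cardinal.sum_nat_eq_add_sum_succ, h0]
  congr 2
  funext n
  rw [← map_derived_comm H n]
  exact (rho_congr ((derivedSeries ↥(commutator H) n).equivMapOfInjective (commutator H).subtype
    (commutator H).subtype_injective)).symm

theorem r0_comm {X : Type u} [CommGroup X] : r0 X = Module.rank ℤ (Additive X) := by
  have h := r0_formula (H := X) (K := X) (C := X) (MonoidHom.id X) (fun _ _ h => h)
    (1 : X →* X) (fun x => ⟨fun _ => ⟨x, rfl⟩, fun _ => rfl⟩)
  rw [h]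
  have : S (1 : X →* X).range = 0 := by
    unfold S
    rw [rank_eq_zero_iff]
    intro x
    refine ⟨1, one_ne_zero, ?_⟩
    rw [one_smul]
    obtain ⟨y, z, hz⟩ := x
    exact Subtype.ext hz.symm
  rw [this, add_zero]

theorem r0_trivial {X : Type u} [Group X] (h : ∀ x : X, x = 1) : r0 X = 0 := by
  let inst : CommGroup X :=
    { (inferInstance : Group X) with mul_comm := fun x y => (by rw [h x, h y]) }
  have h1 := @r0_comm X inst
  have h2 : @Module.rank ℤ (Additive X) _ _ _ = 0 := by
    rw [rank_eq_zero_iff]
    intro x
    refine ⟨1, one_ne_zero, ?_⟩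
    rw [one_smul]
    exact h x.toMul
  exact h1.trans h2

theorem derived_comm_bot {H : Type u} [Group H] {n : ℕ} (h : derivedSeries H (n + 1) = ⊥) :
    derivedSeries ↥(commutator H) n = ⊥ := by
  rw [← map_derived_comm] at h
  exact (Subgroup.map_eq_bot_iff_of_injective _ (commutator H).subtype_injective).mp h

/-- additivity for abelian quotients -/
theorem r0_ker (n : ℕ) : ∀ {H C : Type u} [Group H] [CommGroup C] (π : H →* C),
    derivedSeries H n = ⊥ → r0 H = r0 π.ker + S π.range := by
  induction n with
  | zero =>
    intro H C _ _ π hH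
    have h1 : ∀ x : H, x = 1 := by
      intro x
      have : x ∈ derivedSeries H 0 := by rw [derivedSeries_zero]; trivial
      rw [hH] at this
      exact this
    rw [r0_trivial h1, r0_trivial (fun x : π.ker => Subtype.ext (h1 x)), zero_add]
    symm
    unfold S
    rw [rank_eq_zero_iff]
    intro x
    refine ⟨1, one_ne_zero, ?_⟩
    rw [one_smul]
    obtain ⟨y, z, hz⟩ := x
    refine Subtype.ext ?_
    change y = 1
    rw [← hz, h1 z, map_one]
  | succ n ih =>
    intro H C _ _ π hH
    have hcle : commutator H ≤ π.ker := Abelianization.commutator_subset_ker π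
    let N := π.ker
    let D := commutator H
    -- the map from `D` to the abelianization of `N`
    let σ : ↥(commutator H) →* N :=
      { toFun := fun x => ⟨x, hcle x.2⟩
        map_one' := rfl
        map_mul' := fun _ _ => rfl }
    let πD : ↥(commutator H) →* Abelianization N := Abelianization.of.comp σ
    have hD := ih πD (derived_comm_bot hH)
    have hcN : ∀ x : N, x ∈ commutator N → (x : H) ∈ commutator H := by
      have : (commutator N).map N.subtype ≤ commutator H := by
        rw [commutator_def, Subgroup.map_commutator, commutator_def]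
        exact Subgroup.commutator_mono le_top le_top
      exact fun x hx => this ⟨x, hx, rfl⟩
    have hker : r0 πD.ker = r0 ↥(commutator N) := by
      have hmem : ∀ x : ↥(commutator H), x ∈ πD.ker ↔ σ x ∈ commutator N := by
        intro x
        change Abelianization.of (σ x) = 1 ↔ _
        rw [← MonoidHom.mem_ker, Abelianization.ker_of]
      let f : πD.ker →* ↥(commutator N) :=
        { toFun := fun x => ⟨σ x, (hmem _).mp x.2⟩
          map_one' := rfl
          map_mul' := fun _ _ => rfl }
      have hf : Function.Bijective f := by
        constructor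
        · intro x y hxy
          have h1 : (((x : ↥(commutator H))) : H) = ((y : ↥(commutator H)) : H) :=
            congrArg (fun z : ↥(commutator N) => ((z : N) : H)) hxy
          exact Subtype.ext (Subtype.ext h1)
        · rintro ⟨y, hy⟩
          exact ⟨⟨⟨y, hcN y hy⟩, (hmem _).mpr hy⟩, rfl⟩
      exact r0_congr (MulEquiv.ofBijective f hf)
    let lam : Abelianization N →* Abelianization H :=
      Abelianization.lift (Abelianization.of.comp N.subtype)
    have h1 := rank_hom lam
    have h2 : lam.ker = πD.range := by
      ext x
      obtain ⟨y, rfl⟩ := QuotientGroup.mk_surjective x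
      constructor
      · intro hy
        have hy' : Abelianization.of ((y : N) : H) = 1 := hy
        rw [← MonoidHom.mem_ker, Abelianization.ker_of] at hy'
        exact ⟨⟨y, hy'⟩, rfl⟩
      · rintro ⟨z, hz⟩
        rw [← hz, MonoidHom.mem_ker]
        change Abelianization.of (z : H) = 1
        rw [← MonoidHom.mem_ker, Abelianization.ker_of]
        exact z.2
    have h3 := rank_hom (Abelianization.lift π)
    have h4 : (Abelianization.lift π).ker = lam.range := by
      ext x
      obtain ⟨y, rfl⟩ := QuotientGroup.mk_surjective x
      constructor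
      · intro hy
        have hy' : π y = 1 := hy
        exact ⟨Abelianization.of ⟨y, hy'⟩, rfl⟩
      · rintro ⟨z, hz⟩
        obtain ⟨w, rfl⟩ := QuotientGroup.mk_surjective z
        rw [← hz, MonoidHom.mem_ker]
        exact w.2
    have h5 : (Abelianization.lift π).range = π.range := by
      ext c
      constructor
      · rintro ⟨x, rfl⟩
        obtain ⟨y, rfl⟩ := QuotientGroup.mk_surjective x
        exact ⟨y, rfl⟩
      · rintro ⟨y, rfl⟩
        exact ⟨Abelianization.of y, rfl⟩
    rw [r0_succ H, h3, h4, h5, hD, hker]
    rw [r0_succ ↥π.ker]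
    have h6 : Module.rank ℤ (Additive (Abelianization ↥π.ker)) = S πD.range + S lam.range := by
      rw [← h2]; exact h1
    rw [h6]
    ac_rfl

/-- additivity for abelian kernels -/
theorem r0_abker (n : ℕ) : ∀ {X L K : Type u} [Group X] [Group L] [CommGroup K] (φ : X →* L)
    (j : K →* X), Function.Injective j → Function.Surjective φ →
    (∀ x, φ x = 1 ↔ ∃ k, j k = x) → (∃ m, derivedSeries X m = ⊥) → derivedSeries L n = ⊥ →
    r0 X = Module.rank ℤ (Additive K) + r0 L := by
  induction n with
  | zero =>
    intro X L K _ _ _ φ j hj hφ hex _ hL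
    have h1 : ∀ x : L, x = 1 := by
      intro x
      have : x ∈ derivedSeries L 0 := by rw [derivedSeries_zero]; trivial
      rw [hL] at this
      exact this
    have h2 : Function.Surjective j := fun x => (hex x).mp (h1 _)
    rw [r0_trivial h1, add_zero, ← r0_congr (MulEquiv.ofBijective j ⟨hj, h2⟩)]
    exact r0_comm
  | succ n ih =>
    intro X L K _ _ _ φ j hj hφ hex ⟨m, hm⟩ hL
    let π : X →* Abelianization L := Abelianization.of.comp φ
    have h1 := r0_ker m π hm
    have h2 : π.range = ⊤ := by
      rw [MonoidHom.range_eq_top]
      intro c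
      obtain ⟨y, rfl⟩ := QuotientGroup.mk_surjective c
      obtain ⟨x, rfl⟩ := hφ y
      exact ⟨x, rfl⟩
    have hmem : ∀ x, x ∈ π.ker ↔ φ x ∈ commutator L := by
      intro x
      change Abelianization.of (φ x) = 1 ↔ _
      rw [← MonoidHom.mem_ker, Abelianization.ker_of]
    let φ1 : π.ker →* ↥(commutator L) :=
      { toFun := fun x => ⟨φ x, (hmem _).mp x.2⟩
        map_one' := Subtype.ext (map_one φ)
        map_mul' := fun x y => Subtype.ext (map_mul φ (x : X) (y : X)) }
    have hjk : ∀ k, φ (j k) = 1 := fun k => (hex _).mpr ⟨k, rfl⟩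
    let j1 : K →* π.ker :=
      { toFun := fun k => ⟨j k, (hmem _).mpr (by rw [hjk]; exact one_mem _)⟩
        map_one' := Subtype.ext (map_one j)
        map_mul' := fun x y => Subtype.ext (map_mul j x y) }
    have h3 := ih φ1 j1 (fun x y hxy => hj (congrArg (fun z : π.ker => (z : X)) hxy))
      (by
        rintro ⟨y, hy⟩
        obtain ⟨x, rfl⟩ := hφ y
        exact ⟨⟨x, (hmem x).mpr hy⟩, rfl⟩)
      (by
        intro x
        constructor
        · intro hx
          have hx' : φ (x : X) = 1 := congrArg (fun z : ↥(commutator L) => (z : L)) hx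
          obtain ⟨k, hk⟩ := (hex _).mp hx'
          exact ⟨k, Subtype.ext hk⟩
        · rintro ⟨k, rfl⟩
          exact Subtype.ext (hjk k))
      ⟨m, by
        have hle : (derivedSeries π.ker m).map π.ker.subtype ≤ derivedSeries X m :=
          map_derivedSeries_le_derivedSeries (f := π.ker.subtype) m
        rw [hm, le_bot_iff] at hle
        exact (Subgroup.map_eq_bot_iff_of_injective _ π.ker.subtype_injective).mp hle⟩
      (derived_comm_bot hL)
    rw [h1, h2, S_top, h3, r0_succ L]
    ac_rfl

end Pool.Agent.H465.R0
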