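import Mathlib
import Pool.Agent.H465.R0.Sol

/-! The rank formula for products of two subgroups of a soluble group, under a commutativity
condition. -/

set_option autoImplicit false

namespace Pool.Agent.H465.R0

open Cardinal

universe u

/-- the key identity -/
theorem key' {G K C Q : Type u} [Group G] [CommGroup K] [Group C] [CommGroup Q] (j : K →* G)
    (hj : Function.Injective j) (π : G →* C) (hex : ∀ x, π x = 1 ↔ ∃ k, j k = x)
    (A B : Subgroup G) (hAB : ∀ g, ∃ a ∈ A, ∃ b ∈ B, g = a * b)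
    (i : Q →* C) (hi : Function.Injective i) (hir : ∀ x, x ∈ A.map π ⊓ B.map π ↔ ∃ q, i q = x)
    (hfin : Module.rank ℤ (Additive Q) < ℵ₀) :
    Module.rank ℤ (Additive Q) = S (((A ⊓ B).map π).comap i) +
      Module.rank ℤ (Additive (K ⧸ (A.comap j ⊔ B.comap j))) := by
  classical
  set P := A.comap j ⊔ B.comap j with hP
  have hjk : ∀ k, π (j k) = 1 := fun k => (hex _).mpr ⟨k, rfl⟩
  -- the elements `a` and `b`
  have hq : ∀ q : Q, ∃ ab : G × G, ab.1 ∈ A ∧ ab.2 ∈ B ∧ π ab.1 = i q ∧
      π ab.2 = i q := by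
    intro q
    obtain ⟨⟨a, ha, ha'⟩, ⟨b, hb, hb'⟩⟩ := (hir (i q)).mpr ⟨q, rfl⟩
    exact ⟨(a, b), ha, hb, ha', hb'⟩
  choose ab haA hbB hπa hπb using hq
  -- conjugation on `K`
  have hconj : ∀ g : G, ∀ k : K, ∃ k' : K, j k' = g * j k * g⁻¹ := by
    intro g k
    obtain ⟨k', hk'⟩ := (hex (g * j k * g⁻¹)).mp (by
      rw [map_mul, map_mul, hjk, mul_one, map_inv, mul_inv_cancel])
    exact ⟨k', hk'⟩
  choose cj hcj using hconj
  let cjh : G → K →* K := fun g =>
    { toFun := cj g
      map_one' := hj (by rw [hcj, map_one, mul_one, mul_inv_cancel])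
      map_mul' := fun x y => hj (by rw [map_mul, hcj, hcj, hcj, map_mul]; group) }
  have hcjh : ∀ g k, j (cjh g k) = g * j k * g⁻¹ := hcj
  -- invariance of `P`
  have hinv : ∀ a ∈ A, ∀ b ∈ B, π a = π b → ∀ k ∈ P, cjh a k ∈ P := by
    intro a ha b hb hab k hk
    rw [hP, Subgroup.mem_sup] at hk
    obtain ⟨u, hu, v, hv, rfl⟩ := hk
    rw [map_mul]
    refine P.mul_mem (Subgroup.mem_sup_left ?_) (Subgroup.mem_sup_right ?_)
    · rw [Subgroup.mem_comap, hcjh]
      exact A.mul_mem (A.mul_mem ha hu) (A.inv_mem ha)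
    · rw [Subgroup.mem_comap, hcjh]
      obtain ⟨c, hc⟩ := (hex (a * b⁻¹)).mp (by rw [map_mul, map_inv, hab, mul_inv_cancel])
      obtain ⟨d, hd⟩ : ∃ d, d = cj b v := ⟨_, rfl⟩
      have h1 : a = j c * b := by rw [hc]; group
      have h2 : a * j v * a⁻¹ = j c * (b * j v * b⁻¹) * (j c)⁻¹ := by rw [h1]; group
      have h3 : b * j v * b⁻¹ = j d := by rw [hd, hcj]
      rw [h2, h3, ← map_inv, ← map_mul, ← map_mul, mul_comm c d, mul_inv_cancel_right, ← h3]
      exact B.mul_mem (B.mul_mem hb hv) (B.inv_mem hb)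
  -- the class of `b a⁻¹`
  have hba : ∀ a b : G, π a = π b → ∃ k, j k = b * a⁻¹ := by
    intro a b hab
    exact (hex _).mp (by rw [map_mul, map_inv, hab, mul_inv_cancel])
  have hkq : ∀ q, ∃ k, j k = (ab q).2 * (ab q).1⁻¹ := fun q => hba _ _ ((hπa q).trans (hπb q).symm)
  choose κ hκ using hkq
  let N := K ⧸ P
  let mk : K →* N := QuotientGroup.mk' P
  have hmk : ∀ x y : K, x * y⁻¹ ∈ P → mk x = mk y := by
    intro x y hxy
    have : mk (x * y⁻¹) = 1 := (QuotientGroup.eq_one_iff _).mpr hxy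
    rw [map_mul, map_inv] at this
    exact mul_inv_eq_one.mp this
  have hW : ∀ q : Q, ∀ a ∈ A, ∀ b ∈ B, π a = i q → π b = i q → ∀ k, j k = b * a⁻¹ → mk (κ q) = mk k := by
    intro q a ha b hb hqa hqb k hk
    apply hmk
    -- `a = a_q x`, `b = b_q y`
    obtain ⟨x, hx⟩ := (hex ((ab q).1⁻¹ * a)).mp (by
      rw [map_mul, map_inv, hπa, hqa, inv_mul_cancel])
    obtain ⟨y, hy⟩ := (hex ((ab q).2⁻¹ * b)).mp (by
      rw [map_mul, map_inv, hπb, hqb, inv_mul_cancel])
    have hxA : x ∈ P := Subgroup.mem_sup_left (by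
      rw [Subgroup.mem_comap, hx]
      exact A.mul_mem (A.inv_mem (haA q)) ha)
    have hyB : y ∈ P := Subgroup.mem_sup_right (by
      rw [Subgroup.mem_comap, hy]
      exact B.mul_mem (B.inv_mem (hbB q)) hb)
    have h1 : k = κ q * cjh (ab q).1 (y * x⁻¹) := by
      apply hj
      rw [hk, map_mul, hκ, hcjh, map_mul, map_inv, hx, hy]
      group
    rw [h1, mul_inv_rev, mul_comm, mul_assoc, inv_mul_cancel, mul_one]
    exact P.inv_mem (hinv _ (haA q) _ (hbB q) ((hπa q).trans (hπb q).symm) _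
      (P.mul_mem hyB (P.inv_mem hxA)))
  let δ : Q → Additive N := fun q => Additive.ofMul (mk (κ q))
  let T : Q → Additive N →+ Additive N := fun q =>
    MonoidHom.toAdditive (QuotientGroup.map P P (cjh (ab q).1) (fun k hk =>
      hinv _ (haA q) _ (hbB q) ((hπa q).trans (hπb q).symm) k hk))
  have hT : ∀ q k, T q (Additive.ofMul (mk k)) = Additive.ofMul (mk (cjh (ab q).1 k)) :=
    fun q k => rfl
  let D : Subgroup Q := ((A ⊓ B).map π).comap i
  have main := deriv_rank (Q := Q) (N := Additive N) hfin δ T (fun q p => by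
      change Additive.ofMul (mk (κ (q * p))) = Additive.ofMul (mk (κ q)) + T q (Additive.ofMul (mk (κ p)))
      rw [hT, ← ofMul_mul, ← map_mul]
      congr 1
      refine hW (q * p) ((ab q).1 * (ab p).1) (A.mul_mem (haA q) (haA p))
        ((ab q).2 * (ab p).2) (B.mul_mem (hbB q) (hbB p)) ?_ ?_ _ ?_
      · rw [map_mul, hπa, hπa, map_mul]
      · rw [map_mul, hπb, hπb, map_mul]
      · rw [map_mul, hcjh, hκ, hκ]
        group) (fun n => by
      obtain ⟨k, hk⟩ := QuotientGroup.mk'_surjective P n.toMul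
      obtain ⟨a, ha, b, hb, hab⟩ := hAB (j k)⁻¹
      have h1 : j k = b⁻¹ * a⁻¹ := by
        rw [← mul_inv_rev, ← hab, inv_inv]
      have h2 : π a = π b⁻¹ := by
        have := hjk k
        rw [h1, map_mul, map_inv, map_inv] at this
        rw [map_inv]
        have h3 := mul_inv_eq_one.mp this
        exact h3.symm
      obtain ⟨q, hqq⟩ := (hir (π a)).mp ⟨⟨a, ha, rfl⟩, ⟨b⁻¹, B.inv_mem hb, h2.symm⟩⟩
      refine ⟨q, ?_⟩
      have h4 := hW q a ha b⁻¹ (B.inv_mem hb) hqq.symm (h2.symm.trans hqq.symm) k h1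
      change Additive.ofMul (mk _) = n
      rw [h4]
      exact hk) D (fun q => by
      change i q ∈ (A ⊓ B).map π ↔ mk (κ q) = 1
      constructor
      · rintro ⟨x, ⟨hxA, hxB⟩, hx⟩
        have := hW q x hxA x hxB hx hx 1 (by rw [map_one, mul_inv_cancel])
        rw [this, map_one]
      · intro h0
        have h1 : κ q ∈ P := (QuotientGroup.eq_one_iff _).mp h0
        rw [hP, Subgroup.mem_sup] at h1
        obtain ⟨u, hu, v, hv, huv⟩ := h1
        rw [Subgroup.mem_comap] at hu hv
        have h2 : j v * j u = (ab q).2 * (ab q).1⁻¹ := by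
          rw [← map_mul, mul_comm, huv, hκ]
        have h3 : j u * (ab q).1 = (j v)⁻¹ * (ab q).2 := by
          have : j u = (j v)⁻¹ * ((ab q).2 * (ab q).1⁻¹) := by rw [← h2]; group
          rw [this]; group
        refine ⟨j u * (ab q).1, ⟨A.mul_mem hu (haA q), ?_⟩, ?_⟩
        · rw [h3]
          exact B.mul_mem (B.inv_mem hv) (hbB q)
        · rw [map_mul, hjk, one_mul, hπa])
  exact main

theorem comm_model {L : Type u} [Group L] (Z : Subgroup L) (hZ : ∀ x ∈ Z, ∀ y ∈ Z, x * y = y * x) :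
    ∃ (Q : Type u) (_ : CommGroup Q) (i : Q →* L), Function.Injective i ∧
      ∀ x, x ∈ Z ↔ ∃ q, i q = x := by
  let inst : CommGroup ↥Z :=
    { (inferInstance : Group ↥Z) with mul_comm := fun x y => Subtype.ext (hZ x x.2 y y.2) }
  exact ⟨↥Z, inst, Z.subtype, Z.subtype_injective, fun x => ⟨fun hx => ⟨⟨x, hx⟩, rfl⟩, by
    rintro ⟨q, rfl⟩
    exact q.2⟩⟩

theorem r0_model {L Q : Type u} [Group L] [CommGroup Q] (Z : Subgroup L) (i : Q →* L)
    (hi : Function.Injective i) (hir : ∀ x, x ∈ Z ↔ ∃ q, i q = x) :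
    r0 ↥Z = Module.rank ℤ (Additive Q) := by
  let f : Q →* Z :=
    { toFun := fun q => ⟨i q, (hir _).mpr ⟨q, rfl⟩⟩
      map_one' := Subtype.ext (map_one i)
      map_mul' := fun x y => Subtype.ext (map_mul i x y) }
  have hf : Function.Bijective f := by
    constructor
    · intro x y hxy
      exact hi (congrArg (fun z : Z => (z : L)) hxy)
    · rintro ⟨y, hy⟩
      obtain ⟨q, hq⟩ := (hir y).mp hy
      exact ⟨q, Subtype.ext hq⟩
  rw [← r0_congr (MulEquiv.ofBijective f hf)]
  exact r0_comm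

theorem S_le {H : Type u} [CommGroup H] (Z : Subgroup H) : S Z ≤ Module.rank ℤ (Additive H) := by
  have h := S_map (⊤ : Subgroup H) (QuotientGroup.mk' Z)
  rw [QuotientGroup.ker_mk', top_inf_eq, S_top] at h
  rw [h]
  exact self_le_add_right _ _

theorem derived_sub_bot {G : Type u} [Group G] (X : Subgroup G) {n : ℕ}
    (h : derivedSeries G n = ⊥) : derivedSeries ↥X n = ⊥ := by
  have hle : (derivedSeries X n).map X.subtype ≤ derivedSeries G n :=
    map_derivedSeries_le_derivedSeries (f := X.subtype) n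
  rw [h, le_bot_iff] at hle
  exact (Subgroup.map_eq_bot_iff_of_injective _ X.subtype_injective).mp hle

theorem r0_mono (n : ℕ) : ∀ {H : Type u} [Group H] (X : Subgroup H), derivedSeries H n = ⊥ →
    r0 ↥X ≤ r0 H := by
  induction n with
  | zero =>
    intro H _ X hH
    have h1 : ∀ x : H, x = 1 := by
      intro x
      have : x ∈ derivedSeries H 0 := by rw [derivedSeries_zero]; trivial
      rw [hH] at this
      exact this
    rw [r0_trivial (fun x : X => Subtype.ext (h1 x))]
    exact zero_le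
  | succ n ih =>
    intro H _ X hH
    let π : X →* Abelianization H := Abelianization.of.comp X.subtype
    have h1 := r0_ker (n + 1) π (derived_sub_bot X hH)
    have hmem : ∀ x : X, x ∈ π.ker ↔ (x : H) ∈ commutator H := by
      intro x
      change Abelianization.of (x : H) = 1 ↔ _
      rw [← MonoidHom.mem_ker, Abelianization.ker_of]
    let Y : Subgroup ↥(commutator H) := X.comap (commutator H).subtype
    have h2 : r0 π.ker = r0 Y := by
      let f : π.ker →* Y :=
        { toFun := fun x => ⟨⟨((x : X) : H), (hmem _).mp x.2⟩, (x : X).2⟩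
          map_one' := rfl
          map_mul' := fun _ _ => rfl }
      have hf : Function.Bijective f := by
        constructor
        · intro x y hxy
          have h3 : ((x : X) : H) = ((y : X) : H) :=
            congrArg (fun z : Y => ((z : ↥(commutator H)) : H)) hxy
          exact Subtype.ext (Subtype.ext h3)
        · rintro ⟨⟨y, hy⟩, hy'⟩
          exact ⟨⟨⟨y, hy'⟩, (hmem _).mpr hy⟩, rfl⟩
      exact r0_congr (MulEquiv.ofBijective f hf)
    have h3 := ih Y (derived_comm_bot hH)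
    rw [h1, h2, r0_succ H, add_comm]
    exact add_le_add (S_le _) h3

/-- two elements of `A` which are congruent to elements of `B` modulo a nontrivial term of the
derived series commute modulo this term -/
def Cond {G : Type u} [Group G] (A B : Subgroup G) : Prop :=
  ∀ m : ℕ, derivedSeries G m ≠ ⊥ → ∀ a ∈ A, ∀ a' ∈ A,
    (∃ b ∈ B, a⁻¹ * b ∈ derivedSeries G m) → (∃ b ∈ B, a'⁻¹ * b ∈ derivedSeries G m) →
    a * a' * a⁻¹ * a'⁻¹ ∈ derivedSeries G m

theorem sol_main (n : ℕ) : ∀ {G : Type u} [Group G], derivedSeries G n = ⊥ → r0 G < ℵ₀ →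
    ∀ A B : Subgroup G, (∀ g, ∃ a ∈ A, ∃ b ∈ B, g = a * b) → Cond A B →
    r0 G + r0 ↥(A ⊓ B) = r0 ↥A + r0 ↥B := by
  induction n with
  | zero =>
    intro G _ hG _ A B _ _
    have h1 : ∀ x : G, x = 1 := by
      intro x
      have : x ∈ derivedSeries G 0 := by rw [derivedSeries_zero]; trivial
      rw [hG] at this
      exact this
    rw [r0_trivial h1, r0_trivial (fun x : A => Subtype.ext (h1 x)),
      r0_trivial (fun x : B => Subtype.ext (h1 x)),
      r0_trivial (fun x : ↥(A ⊓ B) => Subtype.ext (h1 x))]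
  | succ n ih =>
    intro G _ hG hfin A B hAB hC
    by_cases hn : derivedSeries G n = ⊥
    · exact ih hn hfin A B hAB hC
    have hKc : ∀ x ∈ derivedSeries G n, ∀ y ∈ derivedSeries G n, x * y = y * x := by
      intro x hx y hy
      have h1 := Subgroup.commutator_mem_commutator hx hy
      have h2 : ⁅derivedSeries G n, derivedSeries G n⁆ = ⊥ := hG
      rw [h2, Subgroup.mem_bot, commutatorElement_eq_one_iff_mul_comm] at h1
      exact h1
    obtain ⟨K, instK, j, hj, hjr⟩ := comm_model (derivedSeries G n) hKc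
    let π : G →* G ⧸ derivedSeries G n := QuotientGroup.mk' (derivedSeries G n)
    have hπ : Function.Surjective π := QuotientGroup.mk'_surjective _
    have hπ1 : ∀ x, π x = 1 ↔ x ∈ derivedSeries G n := fun x => QuotientGroup.eq_one_iff x
    have hex : ∀ x, π x = 1 ↔ ∃ k, j k = x := fun x => (hπ1 x).trans (hjr x)
    have hmap : ∀ m, (derivedSeries G m).map π = derivedSeries (G ⧸ derivedSeries G n) m :=
      fun m => map_derivedSeries_eq (f := π) hπ m
    have hL : derivedSeries (G ⧸ derivedSeries G n) n = ⊥ := by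
      rw [← hmap n]
      exact QuotientGroup.map_mk'_self _
    have hrG := r0_abker n π j hj hπ hex ⟨n + 1, hG⟩ hL
    have hsub : ∀ X : Subgroup G, r0 ↥X = S (X.comap j) + r0 ↥(X.map π) := by
      intro X
      let φ : X →* ↥(X.map π) :=
        { toFun := fun x => ⟨π x, ⟨x, x.2, rfl⟩⟩
          map_one' := Subtype.ext (map_one π)
          map_mul' := fun x y => Subtype.ext (map_mul π (x : G) (y : G)) }
      let j' : ↥(X.comap j) →* X :=
        { toFun := fun k => ⟨j (k : K), k.2⟩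
          map_one' := Subtype.ext (map_one j)
          map_mul' := fun x y => Subtype.ext (map_mul j (x : K) (y : K)) }
      exact r0_abker n φ j'
        (fun x y hxy => Subtype.ext (hj (congrArg (fun z : X => (z : G)) hxy)))
        (by
          rintro ⟨y, x, hx, rfl⟩
          exact ⟨⟨x, hx⟩, rfl⟩)
        (by
          intro x
          constructor
          · intro hx
            have hx' : π (x : G) = 1 := congrArg (fun z : ↥(X.map π) => (z : G ⧸ derivedSeries G n)) hx
            obtain ⟨k, hk⟩ := (hex _).mp hx'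
            refine ⟨⟨k, ?_⟩, Subtype.ext hk⟩
            rw [Subgroup.mem_comap, hk]
            exact x.2
          · rintro ⟨k, rfl⟩
            exact Subtype.ext ((hex _).mpr ⟨k, rfl⟩))
        ⟨n + 1, derived_sub_bot X hG⟩ (derived_sub_bot (X.map π) hL)
    have hdiv : ∀ x y : G, π x = π y → x⁻¹ * y ∈ derivedSeries G n := by
      intro x y hxy
      rw [← hπ1, map_mul, map_inv, hxy, inv_mul_cancel]
    have hZc : ∀ x ∈ A.map π ⊓ B.map π, ∀ y ∈ A.map π ⊓ B.map π, x * y = y * x := by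
      rintro x ⟨⟨a, ha, rfl⟩, ⟨b, hb, hb'⟩⟩ y ⟨⟨a', ha', rfl⟩, ⟨b₂, hb₂, hb₂'⟩⟩
      have h1 := hC n hn a ha a' ha' ⟨b, hb, hdiv a b hb'.symm⟩ ⟨b₂, hb₂, hdiv a' b₂ hb₂'.symm⟩
      have h2 := (hπ1 _).mpr h1
      rw [map_mul, map_mul, map_mul, map_inv, map_inv] at h2
      have h3 := mul_inv_eq_one.mp h2
      exact mul_inv_eq_iff_eq_mul.mp h3
    obtain ⟨Q, instQ, i, hi, hir⟩ := comm_model (A.map π ⊓ B.map π) hZc
    have hrZ : r0 ↥(A.map π ⊓ B.map π) = Module.rank ℤ (Additive Q) := r0_model _ i hi hir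
    have hrL : r0 (G ⧸ derivedSeries G n) < ℵ₀ := by
      rw [hrG] at hfin
      exact lt_of_le_of_lt (self_le_add_left _ _) hfin
    have hfinQ : Module.rank ℤ (Additive Q) < ℵ₀ := by
      rw [← hrZ]
      exact lt_of_le_of_lt (r0_mono n _ hL) hrL
    have hkey := key' j hj π hex A B hAB i hi hir hfinQ
    have hrD : r0 ↥((A ⊓ B).map π) = S (((A ⊓ B).map π).comap i) := by
      have hle : (A ⊓ B).map π ≤ A.map π ⊓ B.map π :=
        le_inf (Subgroup.map_mono inf_le_left) (Subgroup.map_mono inf_le_right)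
      refine r0_model _ (i.comp (((A ⊓ B).map π).comap i).subtype)
        (fun x y hxy => Subtype.ext (hi hxy)) (fun x => ⟨fun hx => ?_, ?_⟩)
      · obtain ⟨q, hq⟩ := (hir x).mp (hle hx)
        refine ⟨⟨q, ?_⟩, hq⟩
        rw [Subgroup.mem_comap, hq]
        exact hx
      · rintro ⟨q, rfl⟩
        exact q.2
    have hABL : ∀ g : G ⧸ derivedSeries G n, ∃ a ∈ A.map π, ∃ b ∈ B.map π, g = a * b := by
      intro g
      obtain ⟨x, rfl⟩ := hπ g
      obtain ⟨a, ha, b, hb, rfl⟩ := hAB x
      exact ⟨π a, ⟨a, ha, rfl⟩, π b, ⟨b, hb, rfl⟩, map_mul π a b⟩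
    have hCL : Cond (A.map π) (B.map π) := by
      intro m hm
      have hmn : m ≤ n := by
        by_contra h
        push Not at h
        apply hm
        rw [eq_bot_iff, ← hL]
        exact derivedSeries_antitone _ h.le
      have hDm : derivedSeries G m ≠ ⊥ := by
        intro h
        apply hn
        rw [eq_bot_iff, ← h]
        exact derivedSeries_antitone _ hmn
      have hlift : ∀ x : G, π x ∈ derivedSeries (G ⧸ derivedSeries G n) m → x ∈ derivedSeries G m := by
        intro x hx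
        rw [← hmap m] at hx
        obtain ⟨d, hd, hd'⟩ := hx
        have h1 := hdiv d x hd'
        have h2 : x = d * (d⁻¹ * x) := by group
        rw [h2]
        exact (derivedSeries G m).mul_mem hd (derivedSeries_antitone G hmn h1)
      rintro _ ⟨a, ha, rfl⟩ _ ⟨a', ha', rfl⟩ ⟨_, ⟨b, hb, rfl⟩, h1⟩ ⟨_, ⟨b₂, hb₂, rfl⟩, h2⟩
      rw [← map_inv, ← map_mul] at h1 h2
      have h3 := hC m hDm a ha a' ha' ⟨b, hb, hlift _ h1⟩ ⟨b₂, hb₂, hlift _ h2⟩
      rw [← map_mul, ← map_inv, ← map_mul, ← map_inv, ← map_mul, ← hmap m]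
      exact ⟨_, h3, rfl⟩
    have hIH := ih hL hrL (A.map π) (B.map π) hABL hCL
    have h4 := S_sup (A.comap j) (B.comap j)
    have h5 := S_quot (A.comap j ⊔ B.comap j)
    have h6 : A.comap j ⊓ B.comap j = (A ⊓ B).comap j := (Subgroup.comap_inf A B j).symm
    rw [h6] at h4
    rw [hrG, hsub (A ⊓ B), hsub A, hsub B, hrD, h5]
    calc (S (A.comap j ⊔ B.comap j) + Module.rank ℤ (Additive (K ⧸ (A.comap j ⊔ B.comap j))) +
          r0 (G ⧸ derivedSeries G n)) + (S ((A ⊓ B).comap j) + S (((A ⊓ B).map π).comap i))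
        = (S (A.comap j ⊔ B.comap j) + S ((A ⊓ B).comap j)) + (r0 (G ⧸ derivedSeries G n) +
          (S (((A ⊓ B).map π).comap i) +
            Module.rank ℤ (Additive (K ⧸ (A.comap j ⊔ B.comap j))))) := by
          ac_rfl
      _ = (S (A.comap j) + S (B.comap j)) + (r0 ↥(A.map π) + r0 ↥(B.map π)) := by
          rw [h4, ← hkey, ← hrZ, hIH]
      _ = _ := by ac_rfl

end Pool.Agent.H465.R0
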